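import Pool.Agent.R78.S3.Lf
import Pool.Agent.R419.CE.Pure

/-!
# The points over `ℚ(∛N, √-3)`
-/

set_option autoImplicit false
set_option linter.unusedSectionVars false

open scoped Classical

namespace Pool.Agent.R78.S3

open Module NumberField IsDedekindDomain
open Pool.Agent.Y703.CT (Cls NoSplit WD EQ)
open Pool.Agent.Y692.QS (Ei)
open Pool.Agent.Y703.CT
open Pool.Agent.Y696.CTE (LawE root_int)

/-- the theorem for the Galois closure of the pure cubic field -/
theorem law_gal {F : Type} [Field F] [NumberField F] {N : ℕ} {θ : F} (h : Fld F N θ) (hN : Cls N) :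
    LawE F (NoSplit N) := by
  have hnc := not_cube hN
  obtain ⟨ω, hω⟩ := exists_omega h hnc
  have hprim : IsPrimitiveRoot ω 3 := by
    refine IsPrimitiveRoot.of_map_of_injective (f := MonoidHom.id F) ?_ Function.injective_id
    have : orderOf ω = 3 := orderOf_eq_prime (om3 hω) (om_ne hω)
    show IsPrimitiveRoot ω 3
    rw [← this]
    exact IsPrimitiveRoot.orderOf ω
  let K := IntermediateField.adjoin ℚ {ω}
  have hcyc : IsCyclotomicExtension {3} ℚ K :=
    hprim.intermediateField_adjoin_isCyclotomicExtension ℚ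
  have hd2 : finrank ℚ K = 2 := deg_omega hω
  have hd3 : finrank K F = 3 := by
    have := finrank_mul_finrank ℚ K F
    rw [hd2, h.deg] at this
    omega
  obtain ⟨n, π, e, hdt, hD⟩ := Pool.Agent.Y274.CT.t_exi N hN.1
  have hJ : Nonempty (Fin n) := by
    have h1 := Pool.Agent.Y274.CT.t_cnt N hN (Fin n) π e hdt hD
    rw [Fintype.card_fin] at h1
    have h2 : n ≠ 0 := by omega
    exact ⟨⟨0, by omega⟩⟩
  have h9 : ¬ (9 : ℤ) ∣ Pool.Agent.Y692.QS.nr (pD π e) - 1 := Pool.Agent.Y703.CT.nr_nine hN hD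
  obtain ⟨⟨j, hj⟩, -⟩ := Pool.Agent.Y455.CTK.jex K
  obtain ⟨ε, hε, hεD⟩ : ∃ ε : ℤ, (ε = 1 ∨ ε = -1) ∧ (ε : Ei) * (N : Ei) = pD π e := by
    rcases hD with h | h
    · exact ⟨1, Or.inl rfl, by rw [h, Int.cast_one, one_mul]⟩
    · exact ⟨-1, Or.inr rfl, by rw [h, Int.cast_neg, Int.cast_one, neg_one_mul, neg_neg]⟩
  obtain ⟨θ', -, hθ'⟩ := root_int (K := K) (F := F) (D := j (pD π e))
    (θ := (ε : F) * θ) (by
      rw [mul_pow, h.cube, ← hεD, map_mul, map_intCast, map_natCast]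
      rcases hε with rfl | rfl
      · simp
      · simp
        ring)
  obtain ⟨Lf, q1, q2, q⟩ := Pool.Agent.R419.CE.lawE Pool.Agent.Y696.CTK.parts
    Pool.Agent.Y696.CTE.partsE j hdt h9 hd3 θ' hθ'
  exact ⟨Lf, q1, q2, fun hs => q (Pool.Agent.Y405.CT.cri Pool.Agent.Y350.CT.rec N hN hs _ π _ hdt hD)⟩

/-- finitely many points -/
theorem fin_pts {F : Type} [Field F] [NumberField F] {N : ℕ} {θ : F} (h : Fld F N θ) (hN : Cls N)
    (hs : NoSplit N) : Finite (Pool.Agent.Y696.CTK.ED (1 : F)).toAffine.Point := by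
  obtain ⟨Lf, -, -, q⟩ := law_gal h hN
  exact (q hs).2.1

end Pool.Agent.R78.S3
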