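import Pool.Agent.R78.S3.Lf
import Pool.Agent.Y715.CT.AN1b
import Pool.Agent.Y696.CT.LQ
import Pool.Agent.Y696.Main2
import Pool.Agent.Y350.CT.REC

/-!
# The L-function of `y² + y = x³` over `ℚ`
-/

set_option autoImplicit false
set_option linter.unusedSectionVars false

open scoped Classical Topology

namespace Pool.Agent.R78.S3.One

open Filter
open Pool.Agent.Y692.QS (Ei w nr toC)
open Pool.Agent.Y703.CT
open Pool.Agent.W192.HK Pool.Agent.TH936.CM Pool.Agent.TH936.PU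
open Pool.Agent.W192.CM (nu)
open Pool.Agent.Y715.Dist Pool.Agent.Y715.Idn Pool.Agent.Y696
open Pool.Agent.Y715.T.Rs (eq0)
open Pool.Agent.Y715.CT.Hec (th gg th_sp)

/-- no prime -/
def p0 : Fin 0 → Ei := fun i => i.elim0
def e0 : Fin 0 → ZMod 3 := fun i => i.elim0

lemma dt0 : Dt p0 e0 := ⟨fun i => i.elim0, fun i => i.elim0, fun i => i.elim0⟩

lemma XX_one (x : eis) : Pool.Agent.Y715.CT.Hec.XX p0 e0 x = 1 := by
  unfold Pool.Agent.Y715.CT.Hec.XX Pool.Agent.Y715.Idn.XT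
  simp

lemma et_triv (α : eis) : et (c := 1) (1 : MulChar (eis ⧸ (sp (1 : eis) : Ideal eis)) ℂ) α = 1 := by
  unfold et
  have hs : Subsingleton (eis ⧸ (sp (1 : eis) : Ideal eis)) := by
    rw [Ideal.Quotient.subsingleton_iff, Ideal.span_singleton_eq_top]
    exact isUnit_one
  have h1 : ∀ x : eis ⧸ (sp (1 : eis) : Ideal eis), IsUnit x := fun x => by
    rw [Subsingleton.elim x 1]
    exact isUnit_one
  exact MulChar.one_apply (h1 _)

lemma th_psi (I : Ideal eis) : th p0 e0 0 I = psi I := by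
  have h1 : (sp (Submodule.IsPrincipal.generator I) : Ideal eis) = I :=
    Submodule.IsPrincipal.span_singleton_generator I
  unfold Pool.Agent.Y715.CT.Hec.th Pool.Agent.Y715.CT.Hec.gg Ana.ej ee fp
  set g := Submodule.IsPrincipal.generator I with hg
  rw [XX_one, h1, mul_one]
  simp only [Fin.val_zero, mul_zero, zero_add, pow_one, Complex.conj_conj]
  by_cases h0 : g = 0
  · have h2 : psi I = 0 := by
      rw [hc_psi.zero]
      left
      rw [← h1, h0]
      exact Ideal.span_singleton_eq_bot.2 rfl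
    rw [h2, zero_div, mul_zero]
  · have h3 : (g : ℂ) ≠ 0 := coe_ne h0
    rw [mul_div_cancel₀ _ h3]

lemma exists_hl : ∃ F : ℂ → ℂ, IsHL p0 e0 F ∧ F 1 ≠ 0 := by
  have hη : ∀ u : eis, IsUnit u →
      et (c := 1) (1 : MulChar (eis ⧸ (sp (1 : eis) : Ideal eis)) ℂ) u = 1 := fun u _ => et_triv u
  obtain ⟨F, f1, f2, f3⟩ := hecke (c := 1) one_ne_zero isCoprime_one_left hη
  have hj : om ^ (2 * ((0 : Fin 3) : ℕ)) * Pool.Agent.Y715.CT.Hec.XX p0 e0 omr = 1 := by
    rw [XX_one]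
    simp
  refine ⟨F, ⟨f1, fun s hs => ?_⟩, ?_⟩
  · refine (Pool.Agent.Y715.CT.AN1b.sum_iff dt0 hj).1 ?_
    have h2 := f2 s hs
    have h3 : (fun I : Ideal eis => psi I *
        eI (c := 1) (1 : MulChar (eis ⧸ (sp (1 : eis) : Ideal eis)) ℂ) I * (nm I : ℂ) ^ (-s)) =
        fun I : Ideal eis => th p0 e0 0 I * (nm I : ℂ) ^ (-s) := by
      funext I
      rw [th_psi]
      unfold eI
      rw [et_triv, mul_one]
    rw [h3] at h2
    exact h2
  · intro h0
    obtain ⟨V, hV⟩ := exists_over_two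
    obtain ⟨Ω, hΩ, hC⟩ := exists_cur
    have h1 := hecke_unit hC hV (c := 1) one_ne_zero isCoprime_one_left isCoprime_one_left
      (k := 0) (by simp) hη (fun P hP => ?_) (f3 _ Ω hC.lat)
    · rw [h0, map_zero, mul_zero, zero_div, map_zero] at h1
      exact v_two_ne (v := V.valuation) h1.symm
    · exact absurd (Ideal.eq_top_of_isUnit_mem _ ((mem_Sc _).1 hP) isUnit_one) P.isPrime.ne_top

theorem one_lf : ∃ L : ℂ → ℂ, Differentiable ℂ L ∧
    (∀ s : ℂ, 3 / 2 < s.re → HasProd (fun p : Nat.Primes => ef 1 p s) (L s)) ∧ L 1 ≠ 0 := by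
  obtain ⟨F, hF, h1⟩ := exists_hl
  have hF' : IsHL p0 (fun j => -e0 j) F := by
    have : (fun j => -e0 j) = e0 := funext fun i => i.elim0
    rw [this]
    exact hF
  have h2 := Pool.Agent.Y696.CT.LQ Pool.Agent.Y350.CT.rec 1
    ⟨one_ne_zero, by norm_num, fun p hp h => by
      have := Nat.le_of_dvd one_pos h
      have h2 := hp.two_le
      have h3 : 2 ^ 3 ≤ p ^ 3 := Nat.pow_le_pow_left h2 3
      omega⟩ (Fin 0) p0 e0 dt0 (Or.inl (by simp [pD])) F hF'
  exact ⟨F, h2.1, fun s hs => h2.2 s hs, h1⟩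

end Pool.Agent.R78.S3.One
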