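import Pool.Agent.R78.S3.Dec
import Pool.Agent.R78.S3.One
import Pool.Agent.R78.S3.Mw

/-!
# The L-functions of all the representations of `Gal(ℚ(∛N, √-3)/ℚ)`
-/

set_option autoImplicit false
set_option linter.unusedSectionVars false

open scoped Classical

namespace Pool.Agent.R78.S3

open Module NumberField IsDedekindDomain
open Pool.Agent.Y703.CT (Cls NoSplit WD EQ)

variable {F : Type} [Field F] [NumberField F] {N : ℕ} {V : Type} [AddCommGroup V] [Module ℂ V]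
  [FiniteDimensional ℂ V] {a t : 𝓞 F} {σ τ : F ≃ₐ[ℚ] F}

/-- the elements that fix `ω` -/
lemma fixa (hG : Gi N a t σ τ) {g : F ≃ₐ[ℚ] F} (hg : g • a = a) : g = 1 ∨ g = σ ∨ g = σ ^ 2 := by
  rcases hG.gt g with h1 | h1 | h1
  · left
    exact hG.ext _ _ (by rw [hg, one_smul]) (by rw [h1, one_smul])
  · right; left
    exact hG.ext _ _ (by rw [hg, hG.sa]) (by rw [h1, hG.st])
  · right; right
    refine hG.ext _ _ ?_ ?_
    · rw [hg, pow_two, mul_smul, hG.sa, hG.sa]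
    · rw [h1, pow_two σ, mul_smul, hG.st, smul_mul', hG.sa, hG.st]
      ring

/-- **The local factor of any representation.** -/
theorem local_gen (hN : Cls N) (hgal : IsGalois ℚ F)
    (hG : Gi N a t σ τ) (ρ : Representation ℂ (F ≃ₐ[ℚ] F) V) {n c : ℕ} (hty : Typ ρ σ n c)
    {p : ℕ} (hp : p.Prime) (h3 : p ≠ 3) {w : HeightOneSpectrum (𝓞 F)}
    (hw : (p : 𝓞 F) ∈ w.asIdeal) {φ : F ≃ₐ[ℚ] F} (hφ : IsFr p w φ) (s : ℂ) :
    ef 1 p s ^ n * (ef N p s * ef (star N) p s) ^ c =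
      (dd ρ (InI w) φ (tr (1 : ZMod p) * (p : ℂ) ^ (-s)) ((p : ℂ) ^ (1 - 2 * s)))⁻¹ := by
  have hfact := Fact.mk hp
  have hcf := cls_cf hN
  have h3p : ¬ p ∣ 3 := fun h => h3 ((Nat.prime_dvd_prime_iff_eq hp Nat.prime_three).1 h)
  have hpc : (p : ℂ) ≠ 0 := by exact_mod_cast hp.ne_zero
  have hy : (p : ℂ) ^ (1 - 2 * s) = p * ((p : ℂ) ^ (-s)) ^ 2 := by
    rw [sub_eq_add_neg, Complex.cpow_add _ _ hpc, Complex.cpow_one, ← Complex.cpow_nat_mul]
    congr 2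
    push_cast
    ring
  have h1g : ¬ p ∣ 3 * 1 := by rwa [mul_one]
  have e1 : ef 1 p s = (1 - tr (1 : ZMod p) * (p : ℂ) ^ (-s) + (p : ℂ) ^ (1 - 2 * s))⁻¹ := by
    rw [ef_good hp h1g, Nat.cast_one]
  have hmod : p % 3 = 1 ∨ p % 3 = 2 := by
    have : p % 3 ≠ 0 := fun h => h3 ((Nat.prime_dvd_prime_iff_eq Nat.prime_three hp).1
      (Nat.dvd_of_mod_eq_zero h)).symm
    omega
  have htr : p % 3 = 2 → ∀ d : ZMod p, tr d = 0 := fun hm d => by
    unfold tr
    rw [cnt_two hm d, sub_self]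
  by_cases hd : p ∣ N
  · have hσ : InI w σ := in_s hgal hG hp hw h3 hd (hcf.2 p hp)
    have hI3 : ∀ g, InI w g → g = 1 ∨ g = σ ∨ g = σ ^ 2 := fun g hg =>
      fixa hG (in_a hG hp hw h3 hg)
    have hI : ∀ g h, InI w g → InI w h → InI w (g * h) := fun g h hg hh =>
      (w.asIdeal.inertia (F ≃ₐ[ℚ] F)).mul_mem hg hh
    rw [ef_bad hp (Dvd.dvd.mul_left hd 3),
      ef_bad hp (Dvd.dvd.mul_left ((prime_dvd_star hcf hp).2 hd) 3), mul_one, one_pow, mul_one, e1]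
    rcases hmod with hm | hm
    · have ha := fr_a hG hp hw h3 hφ
      have hap : a ^ p = a := by
        conv_lhs => rw [← Nat.div_add_mod p 3, pow_add, pow_mul, a3 hG, one_pow, one_mul, hm,
          pow_one]
      rw [hap] at ha
      rw [gdd_ram hG.gen.s3 ρ hty hσ hI3 hI (fixa hG ha), inv_pow]
    · rw [htr hm, zero_mul, sub_zero,
        gdd_ram2 hG.gen ρ hty hσ hI3 hI (fr_two hG hp hw hm hφ), inv_pow]
  · have hd' : ¬ p ∣ star N := fun h => hd ((prime_dvd_star hcf hp).1 h)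
    have g1 : ¬ p ∣ 3 * N := fun h => ((Nat.Prime.dvd_mul hp).1 h).elim h3p hd
    have g2 : ¬ p ∣ 3 * star N := fun h => ((Nat.Prime.dvd_mul hp).1 h).elim h3p hd'
    rw [ef_good hp g1, ef_good hp g2, e1]
    have hI : ∀ g, InI w g ↔ g = 1 := in_one hG hp hw h3 hd
    have hn0 : ((N : ℕ) : ZMod p) ≠ 0 := by
      rw [Ne, ZMod.natCast_eq_zero_iff]; exact hd
    have hs0 : ((star N : ℕ) : ZMod p) ≠ 0 := by
      rw [Ne, ZMod.natCast_eq_zero_iff]; exact hd'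
    have hmul : ((N : ℕ) : ZMod p) * ((star N : ℕ) : ZMod p) = ((rad N : ℕ) : ZMod p) ^ 3 := by
      rw [← Nat.cast_mul, mul_star hcf, Nat.cast_pow]
    have hr0 : ((rad N : ℕ) : ZMod p) ≠ 0 := by
      intro h0
      rw [h0] at hmul
      exact mul_ne_zero hn0 hs0 (by rw [hmul]; ring)
    rcases hmod with hm | hm
    · have hcrit : (p : ℤ) ∣ (N : ℤ) ^ ((p - 1) / 3) - 1 ↔
          ∃ c : ZMod p, c ^ 3 = ((N : ℕ) : ZMod p) := by
        rw [cube_iff hm hn0, ← ZMod.intCast_zmod_eq_zero_iff_dvd]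
        push_cast
        rw [sub_eq_zero]
      by_cases hc : ∃ c : ZMod p, c ^ 3 = ((N : ℕ) : ZMod p)
      · have hφ1 := fr_one hG hp hw hm hd (hcrit.2 hc) hφ
        obtain ⟨c', hc⟩ := hc
        have hc0 : c' ≠ 0 := by
          rintro rfl
          exact hn0 (by rw [← hc]; ring)
        have e2 : tr ((N : ℕ) : ZMod p) = tr (1 : ZMod p) := tr_cube hm hn0 hc0 hc.symm
        have e3 : tr ((star N : ℕ) : ZMod p) = tr (1 : ZMod p) := by
          refine tr_cube hm (r := (rad N : ZMod p) / c') hs0 (div_ne_zero hr0 hc0) ?_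
          rw [div_pow, hc, ← hmul, mul_div_cancel_left₀ _ hn0]
        rw [hφ1, gdd_id ρ hty hI, e2, e3, mul_inv, inv_pow, ← mul_inv, ← pow_two, inv_pow]
      · have hφ1 := fr_ne hG hp hw hm hd (fun h => hc (hcrit.1 h)) hφ
        obtain ⟨e2, e3⟩ := tr_rel hm hn0 hs0 hmul hc
        rw [gdd_cyc ρ hty hI hφ1, mul_inv, inv_pow, ← mul_inv, inv_pow]
        congr 3
        rw [hy]
        linear_combination (-((p : ℂ) ^ (-s)) - p * ((p : ℂ) ^ (-s)) ^ 3) * e2 +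
          ((p : ℂ) ^ (-s)) ^ 2 * e3
    · have e := htr hm
      rw [e, e, e, zero_mul, sub_zero, gdd_trans ρ hty hI (fr_two hG hp hw hm hφ),
        mul_inv, inv_pow, ← mul_inv, ← pow_two, inv_pow]

/-- powers of infinite products -/
lemma hasProd_pow {f : Nat.Primes → ℂ} {x : ℂ} (h : HasProd f x) (n : ℕ) :
    HasProd (fun p => f p ^ n) (x ^ n) := by
  induction n with
  | zero => simpa using (hasProd_one : HasProd (fun _ : Nat.Primes => (1 : ℂ)) 1)
  | succ n ih =>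
    simp only [pow_succ]
    exact ih.mul h

/-- the L-function -/
theorem exists_lf_gen (hN : Cls N) (n c : ℕ) : ∃ L : ℂ → ℂ, Differentiable ℂ L ∧
    (∀ s : ℂ, 3 / 2 < s.re →
      HasProd (fun p : Nat.Primes => ef 1 p s ^ n * (ef N p s * ef (star N) p s) ^ c) (L s)) ∧
    (NoSplit N → L 1 ≠ 0) := by
  obtain ⟨f, hf, hf1, hf2⟩ := One.one_lf
  obtain ⟨g, hg, hg1, hg2⟩ := exists_lf hN
  refine ⟨fun s => f s ^ n * g s ^ c, (hf.pow n).mul (hg.pow c), fun s hs => ?_, fun hs => ?_⟩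
  · exact (hasProd_pow (hf1 s hs) n).mul (hasProd_pow (hg1 s hs) c)
  · exact mul_ne_zero (pow_ne_zero _ hf2) (pow_ne_zero _ (hg2 hs))

end Pool.Agent.R78.S3
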