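import Pool.Agent.R78.S3.Fac

/-!
# Representations of a group of type `S₃`: the local factors
-/

set_option autoImplicit false
set_option linter.unusedSectionVars false

open scoped Classical

namespace Pool.Agent.R78.S3

open Module

section lin

variable {V : Type} [AddCommGroup V] [Module ℂ V] [FiniteDimensional ℂ V]

/-- the determinant in a basis of eigenvectors -/
lemma det_eig {ι : Type} [Fintype ι] (b : Basis ι ℂ V) {A : V →ₗ[ℂ] V} {μ : ι → ℂ}
    (h : ∀ i, A (b i) = μ i • b i) : LinearMap.det A = ∏ i, μ i := by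
  rw [← LinearMap.det_toMatrix b]
  have e : LinearMap.toMatrix b b A = Matrix.diagonal μ := by
    ext i j
    rw [LinearMap.toMatrix_apply, h, map_smul, Basis.repr_self, Finsupp.smul_apply,
      Finsupp.single_apply, Matrix.diagonal_apply, smul_eq_mul]
    by_cases hij : j = i
    · subst hij
      simp
    · rw [if_neg hij, if_neg (Ne.symm hij), mul_zero]
  rw [e, Matrix.det_diagonal]

lemma P2_eig {A : V →ₗ[ℂ] V} {v : V} {α : ℂ} (h : A v = α • v) (x y : ℂ) :
    P2 A x y v = (1 - x * α + y * α ^ 2) • v := by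
  unfold P2
  simp only [LinearMap.add_apply, LinearMap.sub_apply, LinearMap.id_apply, LinearMap.smul_apply,
    Module.End.mul_apply, h, map_smul, smul_smul, add_smul, sub_smul, one_smul, pow_two]

/-- a linear map whose cube is `1` is diagonalizable -/
lemma exists_basis {S : V →ₗ[ℂ] V} (hS : S * S * S = 1) {z : ℂ} (hz : z ^ 2 + z + 1 = 0)
    {T : V →ₗ[ℂ] V} (hT : T * T = 1) (hTS : T * S = S * S * T) :
    ∃ (n c : ℕ) (b : Basis (Fin n ⊕ (Fin c ⊕ Fin c)) ℂ V),
      (∀ i, S (b (Sum.inl i)) = b (Sum.inl i)) ∧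
      (∀ i, S (b (Sum.inr (Sum.inl i))) = z • b (Sum.inr (Sum.inl i))) ∧
      (∀ i, S (b (Sum.inr (Sum.inr i))) = z ^ 2 • b (Sum.inr (Sum.inr i))) := by
  have hz3 : z ^ 3 = 1 := by linear_combination (z - 1) * hz
  have hz1 : z ≠ 1 := by
    rintro rfl
    norm_num at hz
  have hz0 : z ≠ 0 := by
    rintro rfl
    norm_num at hz
  let V1 : Submodule ℂ V := LinearMap.ker (S - (1 : ℂ) • LinearMap.id)
  let V2 : Submodule ℂ V := LinearMap.ker (S - z • LinearMap.id)
  let V3 : Submodule ℂ V := LinearMap.ker (S - z ^ 2 • LinearMap.id)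
  have m1 : ∀ v, v ∈ V1 ↔ S v = v := fun v => by
    show (S - (1 : ℂ) • (LinearMap.id : V →ₗ[ℂ] V)) v = 0 ↔ _
    rw [LinearMap.sub_apply, sub_eq_zero, one_smul, LinearMap.id_apply]
  have m2 : ∀ v, v ∈ V2 ↔ S v = z • v := fun v => by
    show (S - z • (LinearMap.id : V →ₗ[ℂ] V)) v = 0 ↔ _
    rw [LinearMap.sub_apply, sub_eq_zero, LinearMap.smul_apply, LinearMap.id_apply]
  have m3 : ∀ v, v ∈ V3 ↔ S v = z ^ 2 • v := fun v => by
    show (S - z ^ 2 • (LinearMap.id : V →ₗ[ℂ] V)) v = 0 ↔ _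
    rw [LinearMap.sub_apply, sub_eq_zero, LinearMap.smul_apply, LinearMap.id_apply]
  have hSSS : ∀ v, S (S (S v)) = v := fun v => by
    rw [← Module.End.mul_apply, ← Module.End.mul_apply, hS]
    rfl
  have hTT : ∀ v, T (T v) = v := fun v => by
    rw [← Module.End.mul_apply, hT]
    rfl
  have hTSv : ∀ v, T (S v) = S (S (T v)) := fun v => by
    have := congrArg (fun f : V →ₗ[ℂ] V => f v) hTS
    simpa only [Module.End.mul_apply] using this
  have hSTv : ∀ v, S (T v) = T (S (S v)) := fun v => by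
    rw [hTSv, hTSv, hSSS]
  -- dimensions
  have t23 : ∀ v ∈ V2, T v ∈ V3 := fun v hv => by
    rw [m3, hSTv, (m2 v).1 hv, map_smul, (m2 v).1 hv, smul_smul, map_smul, pow_two]
  have t32 : ∀ v ∈ V3, T v ∈ V2 := fun v hv => by
    rw [m2, hSTv, (m3 v).1 hv, map_smul, (m3 v).1 hv, smul_smul, map_smul]
    congr 1
    linear_combination z * hz3
  have hTinj : Function.Injective T := fun x y hxy => by
    rw [← hTT x, hxy, hTT]
  have hdim : finrank ℂ V2 = finrank ℂ V3 := by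
    apply le_antisymm
    · refine LinearMap.finrank_le_finrank_of_injective (f := T.restrict t23) ?_
      intro x y hxy
      exact Subtype.ext (hTinj (congrArg Subtype.val hxy))
    · refine LinearMap.finrank_le_finrank_of_injective (f := T.restrict t32) ?_
      intro x y hxy
      exact Subtype.ext (hTinj (congrArg Subtype.val hxy))
  -- the sum
  let f : (V1 × (V2 × V3)) →ₗ[ℂ] V :=
    V1.subtype.coprod (V2.subtype.coprod V3.subtype)
  have hf : ∀ x : V1 × (V2 × V3), f x = (x.1 : V) + ((x.2.1 : V) + (x.2.2 : V)) := fun x => rfl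
  have hinj : Function.Injective f := by
    rw [← LinearMap.ker_eq_bot, LinearMap.ker_eq_bot']
    rintro ⟨⟨a, ha⟩, ⟨b, hb⟩, ⟨c, hc⟩⟩ h
    rw [hf] at h
    simp only at h
    rw [m1] at ha
    rw [m2] at hb
    rw [m3] at hc
    have h1 := congrArg S h
    rw [map_add, map_add, ha, hb, hc, map_zero] at h1
    have h2 := congrArg S h1
    rw [map_add, map_add, map_smul, map_smul, ha, hb, hc, map_zero, smul_smul, smul_smul] at h2
    have e3 : (3 : ℂ) ≠ 0 := by norm_num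
    have ea : (3 : ℂ) • a = 0 := by
      have : (3 : ℂ) • a = (a + (b + c)) + (a + (z • b + z ^ 2 • c)) +
          (a + ((z * z) • b + (z ^ 2 * z ^ 2) • c)) -
          ((z ^ 2 + z + 1) • b + (z ^ 2 + z + 1 + (z ^ 3 - 1) * z) • c) := by
        module
      rw [this, h, h1, h2, hz, hz3]
      simp
    have eb : (3 : ℂ) • b = 0 := by
      have : (3 : ℂ) • b = (a + (b + c)) + z ^ 2 • (a + (z • b + z ^ 2 • c)) +
          z • (a + ((z * z) • b + (z ^ 2 * z ^ 2) • c)) -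
          ((z ^ 2 + z + 1) • a + (2 * (z ^ 3 - 1)) • b +
            (z ^ 2 + z + 1 + (z ^ 3 - 1) * (z ^ 2 + z)) • c) := by
        module
      rw [this, h, h1, h2, hz, hz3]
      simp
    have ec : (3 : ℂ) • c = 0 := by
      have : (3 : ℂ) • c = (a + (b + c)) + z • (a + (z • b + z ^ 2 • c)) +
          z ^ 2 • (a + ((z * z) • b + (z ^ 2 * z ^ 2) • c)) -
          ((z ^ 2 + z + 1) • a + (z ^ 2 + z + 1 + (z ^ 3 - 1) * z) • b +
            ((z ^ 3 - 1) + (z ^ 6 - 1)) • c) := by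
        module
      have e6 : z ^ 6 = 1 := by
        have : z ^ 6 = (z ^ 3) ^ 2 := by ring
        rw [this, hz3, one_pow]
      rw [this, h, h1, h2, hz, hz3, e6]
      simp
    have ra := (smul_eq_zero.1 ea).resolve_left e3
    have rb := (smul_eq_zero.1 eb).resolve_left e3
    have rc := (smul_eq_zero.1 ec).resolve_left e3
    subst ra rb rc
    rfl
  have hsurj : Function.Surjective f := by
    intro v
    refine ⟨⟨⟨(3 : ℂ)⁻¹ • (v + S v + S (S v)), ?_⟩,
      ⟨(3 : ℂ)⁻¹ • (v + z ^ 2 • S v + z • S (S v)), ?_⟩,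
      ⟨(3 : ℂ)⁻¹ • (v + z • S v + z ^ 2 • S (S v)), ?_⟩⟩, ?_⟩
    · rw [m1, map_smul, map_add, map_add, hSSS]
      congr 1
      abel
    · rw [m2, map_smul, map_add, map_add, map_smul, map_smul, hSSS, smul_comm z]
      congr 1
      rw [smul_add, smul_add, smul_smul, smul_smul]
      have : z * z ^ 2 = 1 := by linear_combination hz3
      rw [this, ← pow_two, one_smul]
      abel
    · rw [m3, map_smul, map_add, map_add, map_smul, map_smul, hSSS, smul_comm (z ^ 2)]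
      congr 1
      rw [smul_add, smul_add, smul_smul, smul_smul]
      have h4 : z ^ 2 * z ^ 2 = z := by linear_combination z * hz3
      have h5 : z ^ 2 * z = 1 := by linear_combination hz3
      rw [h4, h5, one_smul]
      abel
    · rw [hf]
      simp only
      rw [← smul_add, ← smul_add]
      have : v + S v + S (S v) + (v + z ^ 2 • S v + z • S (S v) + (v + z • S v + z ^ 2 • S (S v))) =
          (3 : ℂ) • v + (z ^ 2 + z + 1) • S v + (z ^ 2 + z + 1) • S (S v) := by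
        module
      rw [this, hz]
      simp
  let e := LinearEquiv.ofBijective f ⟨hinj, hsurj⟩
  refine ⟨finrank ℂ V1, finrank ℂ V2, ((finBasis ℂ V1).prod ((finBasis ℂ V2).prod
    (finBasisOfFinrankEq ℂ V3 hdim.symm))).map e, ?_, ?_, ?_⟩
  · intro i
    rw [Basis.map_apply, Basis.prod_apply]
    show S (f _) = f _
    simp only [Sum.elim_inl, Function.comp_apply, LinearMap.inl_apply, hf]
    simp only [Prod.fst_zero, Prod.snd_zero, ZeroMemClass.coe_zero, add_zero]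
    exact (m1 _).1 (Subtype.prop _)
  · intro i
    rw [Basis.map_apply, Basis.prod_apply]
    show S (f _) = z • f _
    simp only [Sum.elim_inr, Function.comp_apply, LinearMap.inr_apply, hf, Basis.prod_apply,
      Sum.elim_inl, LinearMap.inl_apply]
    simp only [ZeroMemClass.coe_zero, add_zero, zero_add]
    exact (m2 _).1 (Subtype.prop _)
  · intro i
    rw [Basis.map_apply, Basis.prod_apply]
    show S (f _) = z ^ 2 • f _
    simp only [Sum.elim_inr, Function.comp_apply, LinearMap.inr_apply, hf, Basis.prod_apply]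
    simp only [ZeroMemClass.coe_zero, zero_add]
    exact (m3 _).1 (Subtype.prop _)

end lin

section rep

variable {G V : Type} [Group G] [Fintype G] [AddCommGroup V] [Module ℂ V] [FiniteDimensional ℂ V]
  {σ τ : G}

/-- `V` is the sum of `n` representations of degree one and `c` times the one of degree two -/
def Typ (ρ : Representation ℂ G V) (σ : G) (n c : ℕ) : Prop :=
  ∃ (z : ℂ) (b : Basis (Fin n ⊕ (Fin c ⊕ Fin c)) ℂ V), z ^ 2 + z + 1 = 0 ∧
    (∀ i, ρ σ (b (Sum.inl i)) = b (Sum.inl i)) ∧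
    (∀ i, ρ σ (b (Sum.inr (Sum.inl i))) = z • b (Sum.inr (Sum.inl i))) ∧
    (∀ i, ρ σ (b (Sum.inr (Sum.inr i))) = z ^ 2 • b (Sum.inr (Sum.inr i)))

theorem exists_typ (hg : Gen σ τ) (ρ : Representation ℂ G V) : ∃ n c, Typ ρ σ n c := by
  obtain ⟨z, hz⟩ : ∃ z : ℂ, z ^ 2 + z + 1 = 0 := by
    obtain ⟨u, h⟩ : ∃ u : ℂ, IsPrimitiveRoot u 3 :=
      ⟨_, Complex.isPrimitiveRoot_exp 3 (by norm_num)⟩
    have h1 := h.pow_eq_one
    have h2 := h.ne_one (by norm_num)
    refine ⟨u, ?_⟩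
    have h3 : (u - 1) * (u ^ 2 + u + 1) = 0 := by linear_combination h1
    exact (mul_eq_zero.1 h3).resolve_left (sub_ne_zero.2 h2)
  obtain ⟨n, c, b, h1, h2, h3⟩ := exists_basis (S := ρ σ) (T := ρ τ) (z := z)
    (by rw [← map_mul, ← map_mul, ← pow_two, ← pow_succ, hg.s3, map_one]) hz
    (by rw [← map_mul, ← pow_two, hg.t2, map_one])
    (by rw [← map_mul, ← map_mul, ← map_mul, hg.ts, pow_two])
  exact ⟨n, c, z, b, hz, h1, h2, h3⟩

lemma prod_idx {n c : ℕ} (u v w : ℂ) (f : Fin n ⊕ (Fin c ⊕ Fin c) → ℂ)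
    (h1 : ∀ i, f (Sum.inl i) = u) (h2 : ∀ i, f (Sum.inr (Sum.inl i)) = v)
    (h3 : ∀ i, f (Sum.inr (Sum.inr i)) = w) : ∏ i, f i = u ^ n * (v * w) ^ c := by
  rw [Fintype.prod_sum_type, Fintype.prod_sum_type]
  simp only [h1, h2, h3, Finset.prod_const, Finset.card_univ, Fintype.card_fin, mul_pow]

/-- the determinant in terms of the three eigenvalues -/
lemma det_typ {n c : ℕ} (b : Basis (Fin n ⊕ (Fin c ⊕ Fin c)) ℂ V) {A : V →ₗ[ℂ] V} {u v w : ℂ}
    (h1 : ∀ i, A (b (Sum.inl i)) = u • b (Sum.inl i))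
    (h2 : ∀ i, A (b (Sum.inr (Sum.inl i))) = v • b (Sum.inr (Sum.inl i)))
    (h3 : ∀ i, A (b (Sum.inr (Sum.inr i))) = w • b (Sum.inr (Sum.inr i))) :
    LinearMap.det A = u ^ n * (v * w) ^ c := by
  rw [det_eig b (A := A) (μ := Sum.elim (fun _ => u) (Sum.elim (fun _ => v) (fun _ => w)))]
  · exact prod_idx u v w _ (fun _ => rfl) (fun _ => rfl) (fun _ => rfl)
  · rintro (i | i | i)
    · exact h1 i
    · exact h2 i
    · exact h3 i

/-- the identity -/
theorem gdd_id (ρ : Representation ℂ G V) {n c : ℕ} (h : Typ ρ σ n c)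
    {I : G → Prop} (hI : ∀ g, I g ↔ g = 1) (x y : ℂ) :
    dd ρ I 1 x y = (1 - x + y) ^ n * ((1 - x + y) ^ 2) ^ c := by
  obtain ⟨z, b, -⟩ := h
  have key : ∀ v : V, P2 (ρ 1) x y v = (1 - x + y) • v := fun v => by
    have h1 : ρ 1 v = (1 : ℂ) • v := by
      rw [map_one, one_smul]
      rfl
    rw [P2_eig h1]
    congr 1
    ring
  rw [dd_one ρ hI, det_typ b (fun i => key _) (fun i => key _) (fun i => key _), pow_two]

/-- a 3-cycle -/
theorem gdd_cyc (ρ : Representation ℂ G V) {n c : ℕ} (h : Typ ρ σ n c)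
    {I : G → Prop} (hI : ∀ g, I g ↔ g = 1) {φ : G} (hφ : φ = σ ∨ φ = σ ^ 2) (x y : ℂ) :
    dd ρ I φ x y = (1 - x + y) ^ n * (1 + x + (x ^ 2 - y) + x * y + y ^ 2) ^ c := by
  obtain ⟨z, b, hz, h1, h2, h3⟩ := h
  rw [dd_one ρ hI]
  rcases hφ with rfl | rfl
  · have k1 : ∀ i, P2 (ρ φ) x y (b (Sum.inl i)) = (1 - x + y) • b (Sum.inl i) := fun i => by
      rw [P2_eig (α := 1) (by rw [h1 i, one_smul])]
      congr 1
      ring
    rw [det_typ b k1 (fun i => P2_eig (h2 i) x y) (fun i => P2_eig (h3 i) x y), cyc_id hz]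
  · have e : ∀ v, ρ (σ ^ 2) v = ρ σ (ρ σ v) := fun v => by
      rw [pow_two, map_mul, Module.End.mul_apply]
    have k1 : ∀ i, P2 (ρ (σ ^ 2)) x y (b (Sum.inl i)) = (1 - x + y) • b (Sum.inl i) := fun i => by
      rw [P2_eig (α := 1) (by rw [e, h1 i, h1 i, one_smul])]
      congr 1
      ring
    have k2 : ∀ i, ρ (σ ^ 2) (b (Sum.inr (Sum.inl i))) = z ^ 2 • b (Sum.inr (Sum.inl i)) :=
      fun i => by rw [e, h2 i, map_smul, h2 i, smul_smul, pow_two]
    have k3 : ∀ i, ρ (σ ^ 2) (b (Sum.inr (Sum.inr i))) = (z ^ 2) ^ 2 • b (Sum.inr (Sum.inr i)) :=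
      fun i => by rw [e, h3 i, map_smul, h3 i, smul_smul, pow_two (z ^ 2)]
    rw [det_typ b k1 (fun i => P2_eig (k2 i) x y) (fun i => P2_eig (k3 i) x y),
      cyc_id (z := z ^ 2) (by linear_combination (z ^ 2 - z + 1) * hz)]

lemma P2_zero {A : V →ₗ[ℂ] V} {v : V} {α : ℂ} (h : A (A v) = α • v) (y : ℂ) :
    P2 A 0 y v = (1 + y * α) • v := by
  unfold P2
  simp only [LinearMap.add_apply, LinearMap.sub_apply, LinearMap.id_apply, LinearMap.smul_apply,
    Module.End.mul_apply, h, smul_smul, add_smul, one_smul, zero_smul, sub_zero]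

/-- a transposition -/
theorem gdd_trans (ρ : Representation ℂ G V) {n c : ℕ} (h : Typ ρ σ n c)
    {I : G → Prop} (hI : ∀ g, I g ↔ g = 1) {φ : G} (hφ : φ ^ 2 = 1) (y : ℂ) :
    dd ρ I φ 0 y = (1 + y) ^ n * ((1 + y) ^ 2) ^ c := by
  obtain ⟨z, b, -⟩ := h
  have key : ∀ v : V, P2 (ρ φ) 0 y v = (1 + y) • v := fun v => by
    have h1 : ρ φ (ρ φ v) = (1 : ℂ) • v := by
      rw [← Module.End.mul_apply, ← map_mul, ← pow_two, hφ, map_one, one_smul]
      rfl
    rw [P2_zero h1, mul_one]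
  rw [dd_one ρ hI, det_typ b (fun i => key _) (fun i => key _) (fun i => key _), pow_two]

/-- the projector on the invariants of `σ` -/
lemma avg_fix (ρ : Representation ℂ G V) {I : G → Prop} (hσ : I σ)
    (hI3 : ∀ g, I g → g = 1 ∨ g = σ ∨ g = σ ^ 2) {v : V} (hv : ρ σ v = v) : avg ρ I v = v := by
  have h1 : ∀ g ∈ Finset.univ.filter I, ρ g v = v := by
    intro g hg
    rcases hI3 g (Finset.mem_filter.1 hg).2 with rfl | rfl | rfl
    · rw [map_one]
      rfl
    · exact hv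
    · rw [pow_two, map_mul, Module.End.mul_apply, hv, hv]
  unfold avg
  rw [LinearMap.smul_apply, LinearMap.sum_apply, Finset.sum_congr rfl h1, Finset.sum_const,
    ← Nat.cast_smul_eq_nsmul ℂ, smul_smul, inv_mul_cancel₀, one_smul]
  have : 0 < (Finset.univ.filter I).card :=
    Finset.card_pos.2 ⟨σ, Finset.mem_filter.2 ⟨Finset.mem_univ _, hσ⟩⟩
  exact_mod_cast this.ne'

lemma avg_kill (ρ : Representation ℂ G V) (hs3 : σ ^ 3 = 1) {I : G → Prop} (hσ : I σ)
    (hI : ∀ g h, I g → I h → I (g * h)) {v : V} {z : ℂ} (hz : z ≠ 1) (hv : ρ σ v = z • v) :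
    avg ρ I v = 0 := by
  have hinv : (∑ g ∈ Finset.univ.filter I, ρ g) * ρ σ = ∑ g ∈ Finset.univ.filter I, ρ g := by
    rw [Finset.sum_mul]
    refine Finset.sum_bij (fun g _ => g * σ) ?_ ?_ ?_ ?_
    · intro g hg'
      rw [Finset.mem_filter] at hg' ⊢
      exact ⟨Finset.mem_univ _, hI _ _ hg'.2 hσ⟩
    · intro a _ c _ h
      exact mul_right_cancel h
    · intro g hg'
      rw [Finset.mem_filter] at hg'
      refine ⟨g * σ ^ 2, ?_, ?_⟩
      · rw [Finset.mem_filter]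
        refine ⟨Finset.mem_univ _, ?_⟩
        rw [pow_two, ← mul_assoc]
        exact hI _ _ (hI _ _ hg'.2 hσ) hσ
      · rw [mul_assoc, ← pow_succ, hs3, mul_one]
    · intro g _
      rw [map_mul]
  have h1 : (∑ g ∈ Finset.univ.filter I, ρ g) v = 0 := by
    have h2 : (z - 1) • (∑ g ∈ Finset.univ.filter I, ρ g) v = 0 := by
      rw [sub_smul, one_smul, ← map_smul, ← hv, ← Module.End.mul_apply, hinv, sub_self]
    exact (smul_eq_zero.1 h2).resolve_left (sub_ne_zero.2 hz)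
  unfold avg
  rw [LinearMap.smul_apply, h1, smul_zero]

lemma z_ne {z : ℂ} (hz : z ^ 2 + z + 1 = 0) : z ≠ 1 ∧ z ^ 2 ≠ 1 := by
  have hz1 : z ≠ 1 := by
    rintro rfl
    norm_num at hz
  refine ⟨hz1, fun h => hz1 ?_⟩
  linear_combination (z - 1) * hz - z * h

/-- ramified, Frobenius in the group of order three -/
theorem gdd_ram (hs3 : σ ^ 3 = 1) (ρ : Representation ℂ G V) {n c : ℕ} (h : Typ ρ σ n c)
    {I : G → Prop} (hσ : I σ) (hI3 : ∀ g, I g → g = 1 ∨ g = σ ∨ g = σ ^ 2)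
    (hI : ∀ g h, I g → I h → I (g * h)) {φ : G} (hφ : φ = 1 ∨ φ = σ ∨ φ = σ ^ 2) (x y : ℂ) :
    dd ρ I φ x y = (1 - x + y) ^ n := by
  obtain ⟨z, b, hz, h1, h2, h3⟩ := h
  obtain ⟨hz1, hz2⟩ := z_ne hz
  unfold dd
  have k1 : ∀ i, P2 (ρ φ * avg ρ I) x y (b (Sum.inl i)) = (1 - x + y) • b (Sum.inl i) :=
    fun i => by
      have e : (ρ φ * avg ρ I) (b (Sum.inl i)) = (1 : ℂ) • b (Sum.inl i) := by
        rw [Module.End.mul_apply, avg_fix ρ hσ hI3 (h1 i), one_smul]
        rcases hφ with rfl | rfl | rfl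
        · rw [map_one]
          rfl
        · exact h1 i
        · rw [pow_two, map_mul, Module.End.mul_apply, h1, h1]
      rw [P2_eig e]
      congr 1
      ring
  have k0 : ∀ v, avg ρ I v = 0 → P2 (ρ φ * avg ρ I) x y v = (1 : ℂ) • v := fun v hv => by
    have e : (ρ φ * avg ρ I) v = (0 : ℂ) • v := by
      rw [Module.End.mul_apply, hv, map_zero, zero_smul]
    rw [P2_eig e]
    congr 1
    ring
  rw [det_typ b k1 (fun i => k0 _ (avg_kill ρ hs3 hσ hI hz1 (h2 i)))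
    (fun i => k0 _ (avg_kill ρ hs3 hσ hI hz2 (h3 i)))]
  ring

lemma comm_pow (hg : Gen σ τ) (g : G) : ∃ k : ℕ, σ * g = g * σ ^ k := by
  have h1 : σ * τ = τ * σ ^ 2 := by
    have h2 : σ * (τ * σ) * (σ ^ 2) = σ * (σ ^ 2 * τ) * (σ ^ 2) := by rw [hg.ts]
    have h3 : σ * (σ ^ 2 * τ) * (σ ^ 2) = σ ^ 3 * τ * σ ^ 2 := by
      simp only [pow_succ, pow_zero, one_mul, mul_assoc]
    have h4 : σ * (τ * σ) * (σ ^ 2) = σ * τ * σ ^ 3 := by
      simp only [pow_succ, pow_zero, one_mul, mul_assoc]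
    rw [h3, h4, hg.s3, mul_one, one_mul] at h2
    exact h2
  have hk : ∀ m : ℕ, σ ^ m * τ = τ * σ ^ (2 * m) := by
    intro m
    induction m with
    | zero => simp
    | succ m ih =>
      rw [pow_succ, mul_assoc, h1, ← mul_assoc, ih, mul_assoc, ← pow_add]
      congr 2
  have hj : ∀ (j m : ℕ), ∃ k : ℕ, σ ^ m * τ ^ j = τ ^ j * σ ^ k := by
    intro j
    induction j with
    | zero => intro m; exact ⟨m, by simp⟩
    | succ j ih =>
      intro m
      obtain ⟨k, hk'⟩ := ih m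
      refine ⟨2 * k, ?_⟩
      rw [pow_succ, ← mul_assoc, hk', mul_assoc, hk, ← mul_assoc]
  obtain ⟨i, j, rfl⟩ := hg.gen g
  obtain ⟨k, hk'⟩ := hj j 1
  refine ⟨k, ?_⟩
  rw [pow_one] at hk'
  rw [mul_assoc, ← hk', ← mul_assoc, ← mul_assoc, ← pow_succ, ← pow_succ']

/-- ramified, Frobenius an involution -/
theorem gdd_ram2 (hg : Gen σ τ) (ρ : Representation ℂ G V) {n c : ℕ} (h : Typ ρ σ n c)
    {I : G → Prop} (hσ : I σ) (hI3 : ∀ g, I g → g = 1 ∨ g = σ ∨ g = σ ^ 2)
    (hI : ∀ g h, I g → I h → I (g * h)) {φ : G} (hφ : φ ^ 2 = 1) (y : ℂ) :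
    dd ρ I φ 0 y = (1 + y) ^ n := by
  obtain ⟨z, b, hz, h1, h2, h3⟩ := h
  obtain ⟨hz1, hz2⟩ := z_ne hz
  have hpow : ∀ (k : ℕ) (v : V), ρ σ v = v → ρ (σ ^ k) v = v := by
    intro k v hv
    induction k with
    | zero =>
      rw [pow_zero, map_one]
      rfl
    | succ k ih => rw [pow_succ, map_mul, Module.End.mul_apply, hv, ih]
  unfold dd
  have k1 : ∀ i, P2 (ρ φ * avg ρ I) 0 y (b (Sum.inl i)) = (1 + y) • b (Sum.inl i) :=
    fun i => by
      have e0 : avg ρ I (b (Sum.inl i)) = b (Sum.inl i) := avg_fix ρ hσ hI3 (h1 i)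
      have e1 : ρ σ (ρ φ (b (Sum.inl i))) = ρ φ (b (Sum.inl i)) := by
        obtain ⟨k, hk⟩ := comm_pow hg φ
        rw [← Module.End.mul_apply, ← map_mul, hk, map_mul, Module.End.mul_apply,
          hpow k _ (h1 i)]
      have e2 : avg ρ I (ρ φ (b (Sum.inl i))) = ρ φ (b (Sum.inl i)) := avg_fix ρ hσ hI3 e1
      have e : (ρ φ * avg ρ I) ((ρ φ * avg ρ I) (b (Sum.inl i))) = (1 : ℂ) • b (Sum.inl i) := by
        rw [Module.End.mul_apply, Module.End.mul_apply, e0, e2, ← Module.End.mul_apply,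
          ← map_mul, ← pow_two, hφ, map_one, one_smul]
        rfl
      rw [P2_zero e, mul_one]
  have k0 : ∀ v, avg ρ I v = 0 → P2 (ρ φ * avg ρ I) 0 y v = (1 : ℂ) • v := fun v hv => by
    have e : (ρ φ * avg ρ I) ((ρ φ * avg ρ I) v) = (0 : ℂ) • v := by
      rw [Module.End.mul_apply, Module.End.mul_apply, hv, map_zero, map_zero, map_zero, zero_smul]
    rw [P2_zero e, mul_zero, add_zero]
  rw [det_typ b k1 (fun i => k0 _ (avg_kill ρ hg.s3 hσ hI hz1 (h2 i)))
    (fun i => k0 _ (avg_kill ρ hg.s3 hσ hI hz2 (h3 i)))]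
  ring

end rep

end Pool.Agent.R78.S3
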