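import Pool.Agent.R78.S3.Gal2

/-!
# The field `ℚ(∛N, √-3)` exists
-/

set_option autoImplicit false

open scoped Classical

namespace Pool.Agent.R78.S3

open Module Polynomial

/-- a splitting field of `X³ - N` has degree six -/
theorem fld_of_split {N : ℕ} (hN : ∀ b : ℚ, b ^ 3 ≠ (N : ℚ)) (S : Type) [Field S] [NumberField S]
    (hs : IsSplittingField ℚ S (X ^ 3 - C (N : ℚ))) : ∃ θ : S, Fld S N θ := by
  have hirr : Irreducible (X ^ 3 - C (N : ℚ)) := irr_poly hN
  have hdeg : (X ^ 3 - C (N : ℚ)).natDegree = 3 := natDegree_X_pow_sub_C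
  have hsp : ((X ^ 3 - C (N : ℚ)).map (algebraMap ℚ S)).Splits :=
    IsSplittingField.splits S (X ^ 3 - C (N : ℚ))
  have hgal : IsGalois ℚ S := IsGalois.of_separable_splitting_field hirr.separable
  have hcard := Polynomial.card_rootSet_eq_natDegree (K := S) hirr.separable hsp
  rw [hdeg] at hcard
  have hne : Nonempty ((X ^ 3 - C (N : ℚ)).rootSet S) := by
    rw [← Fintype.card_pos_iff, hcard]
    norm_num
  obtain ⟨θ, hθ⟩ := hne
  have hcube : θ ^ 3 = (N : S) := by
    rw [Polynomial.mem_rootSet] at hθ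
    have := hθ.2
    simp only [map_sub, map_pow, Polynomial.aeval_X, Polynomial.aeval_C] at this
    rw [sub_eq_zero] at this
    rw [this]
    simp
  refine ⟨θ, hgal, ?_, hcube⟩
  obtain ⟨ω, hω⟩ := exists_omega' (F := S) hcube hN
  have h2 : 2 ∣ finrank ℚ S := by
    rw [← deg_omega hω]
    exact ⟨_, (finrank_mul_finrank ℚ (IntermediateField.adjoin ℚ {ω}) S).symm⟩
  have h3 : 3 ∣ finrank ℚ S := by
    have h4 : finrank ℚ (IntermediateField.adjoin ℚ {θ}) = 3 := by
      rw [IntermediateField.adjoin.finrank (Algebra.IsIntegral.isIntegral θ), minpoly_eq' hcube hN,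
        natDegree_X_pow_sub_C]
    rw [← h4]
    exact ⟨_, (finrank_mul_finrank ℚ (IntermediateField.adjoin ℚ {θ}) S).symm⟩
  have hle : finrank ℚ S ≤ 6 := by
    rw [(IsSplittingField.algEquiv S (X ^ 3 - C (N : ℚ))).toLinearEquiv.finrank_eq,
      ← Polynomial.Gal.card_of_separable hirr.separable]
    have : Fact (((X ^ 3 - C (N : ℚ)).map (algebraMap ℚ S)).Splits) := ⟨hsp⟩
    have hinj := Polynomial.Gal.galActionHom_injective (X ^ 3 - C (N : ℚ)) S
    have h5 := Nat.card_le_card_of_injective _ hinj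
    have h6 : Nat.card (Equiv.Perm ((X ^ 3 - C (N : ℚ)).rootSet S)) = 6 := by
      rw [Nat.card_eq_fintype_card, Fintype.card_perm, hcard]
      rfl
    rw [h6] at h5
    exact h5
  have hpos : 0 < finrank ℚ S := finrank_pos
  omega

theorem exists_fld {N : ℕ} (hN : ∀ b : ℚ, b ^ 3 ≠ (N : ℚ)) :
    ∃ (F : Type) (_ : Field F) (_ : NumberField F) (θ : F), Fld F N θ := by
  have h0 : CharZero (X ^ 3 - C (N : ℚ)).SplittingField :=
    charZero_of_injective_algebraMap
      (algebraMap ℚ (X ^ 3 - C (N : ℚ)).SplittingField).injective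
  have hs1 := Polynomial.IsSplittingField.splittingField (X ^ 3 - C (N : ℚ))
  have hs : @IsSplittingField ℚ (X ^ 3 - C (N : ℚ)).SplittingField _ _
      DivisionRing.toRatAlgebra (X ^ 3 - C (N : ℚ)) := by
    convert hs1
    exact Subsingleton.elim _ _
  have hfd : @FiniteDimensional ℚ (X ^ 3 - C (N : ℚ)).SplittingField _ _
      (@Algebra.toModule _ _ _ _ DivisionRing.toRatAlgebra) := by
    let _ : Algebra ℚ (X ^ 3 - C (N : ℚ)).SplittingField := DivisionRing.toRatAlgebra
    exact IsSplittingField.finiteDimensional _ (X ^ 3 - C (N : ℚ))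
  have hnf : NumberField (X ^ 3 - C (N : ℚ)).SplittingField :=
    { to_charZero := h0, to_finiteDimensional := hfd }
  obtain ⟨θ, hθ⟩ := fld_of_split hN _ hs
  exact ⟨_, inferInstance, hnf, θ, hθ⟩

end Pool.Agent.R78.S3
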