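import Pool.Agent.R78.S3.Loc

/-!
# The inertia group at the primes that divide `N`; existence of Frobenius elements
-/

set_option autoImplicit false
set_option linter.unusedSectionVars false

open scoped Classical

namespace Pool.Agent.R78.S3

open Module NumberField IsDedekindDomain WithZero

variable {F : Type} [Field F] [NumberField F] {N : ℕ}

/-- cube roots of `exp (-e)` -/
theorem cube_exp' {a : ℤᵐ⁰} {e : ℤ} (h : a ^ 3 = exp (-e)) : (3 : ℤ) ∣ e := by
  have ha : a ≠ 0 := by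
    rintro rfl
    rw [zero_pow (by norm_num)] at h
    exact exp_ne_zero h.symm
  have h2 := congrArg log h
  rw [log_pow, log_exp, nsmul_eq_mul] at h2
  exact ⟨-log a, by push_cast at h2; linarith⟩

/-- the place of `ℤ` -/
noncomputable def vp (p : ℕ) (hp : p.Prime) : HeightOneSpectrum ℤ :=
  ⟨Ideal.span {(p : ℤ)}, (Ideal.span_singleton_prime (by exact_mod_cast hp.ne_zero)).2
    (Nat.prime_iff_prime_int.1 hp), by
    rw [Ne, Ideal.span_singleton_eq_bot]
    exact_mod_cast hp.ne_zero⟩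

lemma vp_val {p : ℕ} (hp : p.Prime) (hd : p ∣ N) (hc : ¬ p ^ 3 ∣ N) :
    ∃ m : ℤ, (m = 1 ∨ m = 2) ∧ (vp p hp).intValuation (N : ℤ) = exp (-m) := by
  have hp0 : (p : ℤ) ≠ 0 := by exact_mod_cast hp.ne_zero
  have hval : (vp p hp).intValuation (p : ℤ) = exp (-1 : ℤ) :=
    (vp p hp).intValuation_singleton hp0 rfl
  have hone : ∀ c : ℕ, ¬ p ∣ c → (vp p hp).intValuation (c : ℤ) = 1 := by
    intro c hc
    rw [HeightOneSpectrum.intValuation_eq_one_iff]
    intro h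
    apply hc
    have h1 : (c : ℤ) ∈ Ideal.span {(p : ℤ)} := h
    rw [Ideal.mem_span_singleton] at h1
    exact_mod_cast h1
  obtain ⟨c, rfl⟩ := hd
  by_cases hpc : p ∣ c
  · obtain ⟨b, rfl⟩ := hpc
    have hpb : ¬ p ∣ b := by
      rintro ⟨d, rfl⟩
      exact hc ⟨d, by ring⟩
    refine ⟨2, Or.inr rfl, ?_⟩
    push_cast
    rw [map_mul, map_mul, hval, hone b hpb, mul_one, ← exp_add]
    norm_num
  · refine ⟨1, Or.inl rfl, ?_⟩
    push_cast
    rw [map_mul, hval, hone c hpc, mul_one]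

lemma lies {p : ℕ} (hp : p.Prime) {w : HeightOneSpectrum (𝓞 F)} (hw : (p : 𝓞 F) ∈ w.asIdeal) :
    w.asIdeal.LiesOver (vp p hp).asIdeal := by
  constructor
  have hmax : (vp p hp).asIdeal.IsMaximal := (vp p hp).isPrime.isMaximal (vp p hp).ne_bot
  refine hmax.eq_of_le ?_ ?_
  · intro h
    have h1 : (1 : ℤ) ∈ w.asIdeal.under ℤ := by rw [h]; trivial
    rw [Ideal.under_def, Ideal.mem_comap, map_one] at h1
    exact w.isPrime.ne_top ((Ideal.eq_top_iff_one _).2 h1)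
  · show Ideal.span {(p : ℤ)} ≤ _
    rw [Ideal.span_singleton_le_iff_mem, Ideal.under_def, Ideal.mem_comap]
    simpa using hw

/-- **`σ` is in the inertia group** -/
theorem in_s (hgal : IsGalois ℚ F) {a t : 𝓞 F} {σ τ : F ≃ₐ[ℚ] F} (hG : Gi N a t σ τ)
    {w : HeightOneSpectrum (𝓞 F)} {p : ℕ} (hp : p.Prime) (hw : (p : 𝓞 F) ∈ w.asIdeal)
    (h3 : p ≠ 3) (hd : p ∣ N) (hc : ¬ p ^ 3 ∣ N) : InI w σ := by
  have hlo := lies hp hw
  obtain ⟨m, hm, hval⟩ := vp_val hp hd hc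
  have hcube : w.intValuation t ^ 3 =
      exp (-(((vp p hp).asIdeal.ramificationIdx' w.asIdeal : ℤ) * m)) := by
    rw [← map_pow, hG.ht]
    have e : ((N : 𝓞 F)) = algebraMap ℤ (𝓞 F) (N : ℤ) := by simp
    rw [e, ← HeightOneSpectrum.intValuation_liesOver (vp p hp) w, hval, ← exp_nsmul]
    congr 1
    simp
  have h3e : 3 ∣ (vp p hp).asIdeal.ramificationIdx' w.asIdeal := by
    have h1 := cube_exp' hcube
    have h2 : (3 : ℤ) ∣ ((vp p hp).asIdeal.ramificationIdx' w.asIdeal : ℤ) := by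
      rcases hm with rfl | rfl
      · simpa using h1
      · omega
    exact_mod_cast h2
  have hcard : Nat.card (w.asIdeal.inertia (F ≃ₐ[ℚ] F)) =
      (vp p hp).asIdeal.ramificationIdx' w.asIdeal := by
    have hpr := (vp p hp).isPrime
    have hwr := w.isPrime
    rw [Ideal.card_inertia_eq_ramificationIdxIn (G := F ≃ₐ[ℚ] F) (vp p hp).asIdeal w.asIdeal,
      Ideal.ramificationIdxIn_eq_ramificationIdx (vp p hp).asIdeal w.asIdeal (F ≃ₐ[ℚ] F),
      Ideal.ramificationIdx'_eq_ramificationIdx _ _ (vp p hp).ne_bot]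
  rw [← hcard] at h3e
  have := Fact.mk Nat.prime_three
  obtain ⟨g, hg⟩ := exists_prime_orderOf_dvd_card' 3 h3e
  have hgI : InI w (g : F ≃ₐ[ℚ] F) := g.2
  have hg3 : orderOf (g : F ≃ₐ[ℚ] F) = 3 := by rw [← hg]; exact Subgroup.orderOf_coe g
  have hga := in_a hG hp hw h3 hgI
  have hmem : ∀ k : ℕ, InI w ((g : F ≃ₐ[ℚ] F) ^ k) := fun k => (g ^ k).2
  rcases hG.gt (g : F ≃ₐ[ℚ] F) with h1 | h1 | h1
  · exfalso
    have : (g : F ≃ₐ[ℚ] F) = 1 := hG.ext _ _ (by rw [hga, one_smul]) (by rw [h1, one_smul])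
    rw [this, orderOf_one] at hg3
    omega
  · have : (g : F ≃ₐ[ℚ] F) = σ := hG.ext _ _ (by rw [hga, hG.sa]) (by rw [h1, hG.st])
    rw [← this]
    exact hgI
  · have : (g : F ≃ₐ[ℚ] F) ^ 2 = σ := by
      refine hG.ext _ _ ?_ ?_
      · rw [pow_two, mul_smul, hga, hga, hG.sa]
      · rw [pow_two, mul_smul, h1, smul_mul', smul_pow', hga, h1, hG.st]
        linear_combination (a * t) * a3 hG
    rw [← this]
    exact hmem 2

/-- primes above -/
theorem exists_w (F : Type) [Field F] [NumberField F] {p : ℕ} (hp : p.Prime) :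
    ∃ w : HeightOneSpectrum (𝓞 F), (p : 𝓞 F) ∈ w.asIdeal := by
  have hp0 : (p : 𝓞 F) ≠ 0 := by exact_mod_cast hp.ne_zero
  have hnu : ¬ IsUnit (p : 𝓞 F) := by
    intro h
    have h1 : IsUnit (Algebra.norm ℤ (p : 𝓞 F)) := h.map (Algebra.norm ℤ)
    have e : (p : 𝓞 F) = algebraMap ℤ (𝓞 F) (p : ℤ) := by simp
    rw [e, Algebra.norm_algebraMap] at h1
    have h2 : IsUnit ((p : ℤ)) := by
      refine (isUnit_pow_iff ?_).1 h1
      rw [RingOfIntegers.rank]
      exact (Module.finrank_pos).ne'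
    exact (Nat.prime_iff_prime_int.1 hp).not_unit h2
  obtain ⟨M, hM, hle⟩ := Ideal.exists_le_maximal (Ideal.span {(p : 𝓞 F)}) (by
    rw [Ne, Ideal.span_singleton_eq_top]
    exact hnu)
  have hmem : (p : 𝓞 F) ∈ M := hle (Ideal.mem_span_singleton_self _)
  refine ⟨⟨M, hM.isPrime, ?_⟩, hmem⟩
  rintro rfl
  exact hp0 (by simpa using hmem)

/-- Frobenius elements -/
theorem exists_fr (hgal : IsGalois ℚ F) {p : ℕ} (hp : p.Prime) (w : HeightOneSpectrum (𝓞 F))
    (hw : (p : 𝓞 F) ∈ w.asIdeal) : ∃ g : F ≃ₐ[ℚ] F, IsFr p w g := by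
  have hwr := w.isPrime
  have hfin : Finite (𝓞 F ⧸ w.asIdeal) := Ideal.finiteQuotientOfFreeOfNeBot _ w.ne_bot
  obtain ⟨g, hg⟩ := IsArithFrobAt.exists_of_isInvariant ℤ (F ≃ₐ[ℚ] F) w.asIdeal
  have hlo := (lies hp hw).over
  have hcard : Nat.card (ℤ ⧸ w.asIdeal.under ℤ) = p := by
    rw [← hlo]
    show Nat.card (ℤ ⧸ Ideal.span {(p : ℤ)}) = p
    rw [Nat.card_congr (Int.quotientSpanNatEquivZMod p).toEquiv, Nat.card_zmod]
  refine ⟨g, fun x => ?_⟩
  have := hg x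
  rw [hcard] at this
  exact this

end Pool.Agent.R78.S3
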