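import Mathlib
import Pool.Agent.Y703.CT.Defs

/-!
# The dual `N' = rad(N)³ / N` of a cube-free number of the class
-/

set_option autoImplicit false

open scoped Classical

namespace Pool.Agent.R78.S3

open Pool.Agent.Y703.CT (Base Cls NoSplit)

/-- the radical -/
def rad (n : ℕ) : ℕ := ∏ p ∈ n.primeFactors, p

theorem rad_pos (n : ℕ) : 0 < rad n :=
  Finset.prod_pos fun _ hp => (Nat.prime_of_mem_primeFactors hp).pos

theorem prime_dvd_rad {n p : ℕ} (hn : n ≠ 0) (hp : p.Prime) : p ∣ rad n ↔ p ∣ n := by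
  unfold rad
  rw [hp.prime.dvd_finsetProd_iff]
  constructor
  · rintro ⟨q, hq, h⟩
    rw [(Nat.prime_dvd_prime_iff_eq hp (Nat.prime_of_mem_primeFactors hq)).1 h]
    exact Nat.dvd_of_mem_primeFactors hq
  · intro h
    exact ⟨p, Nat.mem_primeFactors.2 ⟨hp, h, hn⟩, dvd_rfl⟩

theorem fact_rad {n p : ℕ} (hn : n ≠ 0) (hp : p.Prime) (h : p ∣ n) : (rad n).factorization p = 1 := by
  unfold rad
  rw [Nat.factorization_prod (fun q hq => (Nat.prime_of_mem_primeFactors hq).ne_zero)]
  rw [Finsupp.finsetSum_apply]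
  rw [Finset.sum_eq_single p]
  · exact hp.factorization_self
  · intro q hq hqp
    rw [(Nat.prime_of_mem_primeFactors hq).factorization]
    exact Finsupp.single_eq_of_ne (Ne.symm hqp)
  · intro h'
    exact absurd (Nat.mem_primeFactors.2 ⟨hp, h, hn⟩) h'

theorem rad_mul {a b : ℕ} (h : Nat.Coprime a b) : rad (a * b) = rad a * rad b := by
  unfold rad
  rw [h.primeFactors_mul, Finset.prod_union h.disjoint_primeFactors]

/-- `n` is not zero and not divisible by the cube of a prime -/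
def CF (n : ℕ) : Prop := n ≠ 0 ∧ ∀ p : ℕ, p.Prime → ¬ p ^ 3 ∣ n

theorem cf_dvd {m n : ℕ} (h : CF n) (hm : m ∣ n) : CF m :=
  ⟨fun h0 => h.1 (by rw [h0, zero_dvd_iff] at hm; exact hm), fun p hp hpm => h.2 p hp (hpm.trans hm)⟩

theorem fact_le {n p : ℕ} (h : CF n) (hp : p.Prime) : n.factorization p ≤ 2 := by
  by_contra hc
  push Not at hc
  exact h.2 p hp ((hp.pow_dvd_iff_le_factorization h.1).2 hc)

theorem dvd_rad {n : ℕ} (h : CF n) : n ∣ rad n ^ 3 := by
  rw [← Nat.factorization_le_iff_dvd h.1 (pow_ne_zero _ (rad_pos n).ne')]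
  intro p
  by_cases hp : p.Prime
  · rw [Nat.factorization_pow, Finsupp.smul_apply, smul_eq_mul]
    by_cases hd : p ∣ n
    · rw [fact_rad h.1 hp hd]
      have := fact_le h hp
      omega
    · rw [Nat.factorization_eq_zero_of_not_dvd hd]
      exact Nat.zero_le _
  · rw [Nat.factorization_eq_zero_of_not_prime n hp]
    exact Nat.zero_le _

/-- the dual -/
def star (n : ℕ) : ℕ := rad n ^ 3 / n

theorem mul_star {n : ℕ} (h : CF n) : n * star n = rad n ^ 3 := Nat.mul_div_cancel' (dvd_rad h)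

theorem star_ne {n : ℕ} (h : CF n) : star n ≠ 0 := by
  intro h0
  have := mul_star h
  rw [h0, mul_zero] at this
  exact (pow_ne_zero 3 (rad_pos n).ne') this.symm

theorem fact_star {n p : ℕ} (h : CF n) (hp : p.Prime) (hd : p ∣ n) :
    n.factorization p + (star n).factorization p = 3 := by
  have h1 : (n * star n).factorization p = (rad n ^ 3).factorization p := by rw [mul_star h]
  rw [Nat.factorization_mul h.1 (star_ne h), Nat.factorization_pow, Finsupp.add_apply,
    Finsupp.smul_apply, fact_rad h.1 hp hd] at h1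
  simpa using h1

theorem prime_dvd_star {n p : ℕ} (h : CF n) (hp : p.Prime) : p ∣ star n ↔ p ∣ n := by
  constructor
  · intro hd
    have h1 : p ∣ rad n ^ 3 := by
      rw [← mul_star h]
      exact Dvd.dvd.mul_left hd n
    exact (prime_dvd_rad h.1 hp).1 (hp.dvd_of_dvd_pow h1)
  · intro hd
    have h1 := fact_star h hp hd
    have h2 := fact_le h hp
    have h3 : (star n).factorization p ≠ 0 := by omega
    exact Nat.dvd_of_factorization_pos h3

theorem cf_star {n : ℕ} (h : CF n) : CF (star n) := by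
  refine ⟨star_ne h, fun p hp hd => ?_⟩
  have h0 : p ∣ star n := (dvd_pow_self p (by norm_num)).trans hd
  have h1 : p ∣ n := (prime_dvd_star h hp).1 h0
  have h2 := fact_star h hp h1
  have h3 : 3 ≤ (star n).factorization p := (hp.pow_dvd_iff_le_factorization (star_ne h)).1 hd
  have h4 : 1 ≤ n.factorization p := (hp.dvd_iff_one_le_factorization h.1).1 h1
  omega

theorem rad_star {n : ℕ} (h : CF n) : rad (star n) = rad n := by
  unfold rad
  refine Finset.prod_congr ?_ fun _ _ => rfl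
  ext p
  rw [Nat.mem_primeFactors, Nat.mem_primeFactors]
  constructor
  · rintro ⟨hp, hd, -⟩
    exact ⟨hp, (prime_dvd_star h hp).1 hd, h.1⟩
  · rintro ⟨hp, hd, -⟩
    exact ⟨hp, (prime_dvd_star h hp).2 hd, star_ne h⟩

theorem star_star {n : ℕ} (h : CF n) : star (star n) = n := by
  have h1 := mul_star (cf_star h)
  rw [rad_star h, ← mul_star h, mul_comm n (star n)] at h1
  exact Nat.eq_of_mul_eq_mul_left (Nat.pos_of_ne_zero (star_ne h)) h1

theorem star_eq_one {n : ℕ} (h : CF n) (h1 : star n = 1) : n = 1 := by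
  by_contra hne
  obtain ⟨p, hp, hd⟩ := Nat.exists_prime_and_dvd hne
  have := (prime_dvd_star h hp).2 hd
  rw [h1] at this
  exact hp.one_lt.ne' (Nat.dvd_one.1 this)

theorem cls_cf {N : ℕ} (h : Cls N) : CF N := ⟨h.1.1, h.1.2.2⟩

/-- the dual is in the class -/
theorem cls_star {N : ℕ} (h : Cls N) : Cls (star N) := by
  have hc := cls_cf h
  obtain ⟨⟨h0, h3, hcf⟩, h1, h8, q, hq, hq3, hqN, hall⟩ := h
  have h3' : ¬ 3 ∣ star N := fun hd => h3 ((prime_dvd_star hc Nat.prime_three).1 hd)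
  have hr3 : ¬ 3 ∣ rad N := fun hd => h3 ((prime_dvd_rad hc.1 Nat.prime_three).1 hd)
  have hm := mul_star hc
  have hmod : (N % 9) * (star N % 9) % 9 = (rad N % 9) ^ 3 % 9 := by
    rw [← Nat.mul_mod, hm, Nat.pow_mod]
  have hr : (rad N % 9) ^ 3 % 9 = 1 ∨ (rad N % 9) ^ 3 % 9 = 8 := by
    have hlt : rad N % 9 < 9 := Nat.mod_lt _ (by norm_num)
    have hne : rad N % 9 % 3 ≠ 0 := by
      intro h'
      apply hr3
      omega
    generalize rad N % 9 = r at hlt hne
    interval_cases r <;> simp_all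
  refine ⟨⟨star_ne hc, h3', (cf_star hc).2⟩, ?_, ?_, q, hq, hq3, (prime_dvd_star hc hq).2 hqN,
    fun p hp hd hpq => hall p hp ((prime_dvd_star hc hp).1 hd) hpq⟩
  · intro h1'
    rw [h1'] at hmod
    omega
  · intro h8'
    rw [h8'] at hmod
    have hlt : N % 9 < 9 := Nat.mod_lt _ (by norm_num)
    generalize N % 9 = r at hlt h1 h8 hmod
    generalize (rad N % 9) ^ 3 % 9 = t at hmod hr
    interval_cases r <;> omega

/-- the dual does not split -/
theorem noSplit_star {N : ℕ} (hN : CF N) (h : NoSplit N) : NoSplit (star N) := by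
  intro d hd hco hcube
  have hcf : ∀ c, CF (d c) := fun c => cf_dvd (cf_star hN) (by
    rw [← hd]
    exact Finset.dvd_prod_of_mem d (Finset.mem_univ c))
  have hprod3 : ∀ f : ZMod 3 → ℕ, ∏ c, f c = f 0 * f 1 * f 2 := fun f => by
    rw [show (Finset.univ : Finset (ZMod 3)) = {0, 1, 2} from rfl]
    rw [Finset.prod_insert (by decide), Finset.prod_insert (by decide), Finset.prod_singleton,
      mul_assoc]
  have hradp : ∏ c, rad (d c) = rad N := by
    rw [hprod3]
    have h01 := hco 0 1 (by decide)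
    have h02 := hco 0 2 (by decide)
    have h12 := hco 1 2 (by decide)
    rw [← rad_mul h01, ← rad_mul (Nat.Coprime.mul_left h02 h12), ← hprod3 d, hd, rad_star hN]
  have hp1 : ∏ c, star (d c) = N := by
    have e1 : (∏ c, d c) * ∏ c, star (d c) = (∏ c, rad (d c)) ^ 3 := by
      rw [← Finset.prod_mul_distrib, ← Finset.prod_pow]
      exact Finset.prod_congr rfl fun c _ => mul_star (hcf c)
    rw [hd, hradp, ← mul_star hN, mul_comm N (star N)] at e1
    exact Nat.eq_of_mul_eq_mul_left (Nat.pos_of_ne_zero (star_ne hN)) e1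
  have hp2 : ∀ c c', c ≠ c' → Nat.Coprime (star (d c)) (star (d c')) := by
    intro c c' hcc
    rw [Nat.coprime_iff_gcd_eq_one]
    by_contra hne
    obtain ⟨p, hp, hpd⟩ := Nat.exists_prime_and_dvd hne
    have h1 := (prime_dvd_star (hcf c) hp).1 (hpd.trans (Nat.gcd_dvd_left _ _))
    have h2 := (prime_dvd_star (hcf c') hp).1 (hpd.trans (Nat.gcd_dvd_right _ _))
    exact hp.one_lt.ne' (Nat.dvd_one.1 ((hco c c' hcc) ▸ Nat.dvd_gcd h1 h2))
  have hp3 : ∀ (c : ZMod 3) (p : ℕ), p.Prime → p ∣ star (d c) →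
      ∃ x : ℤ, (p : ℤ) ∣ (star (d (c + 1)) : ℤ) * (star (d (c + 2)) : ℤ) ^ 2 - x ^ 3 := by
    intro c p hp hpd
    have hpc := (prime_dvd_star (hcf c) hp).1 hpd
    obtain ⟨x, hx⟩ := hcube c p hp hpc
    have := Fact.mk hp
    have hx' : ((d (c + 1) : ℕ) : ZMod p) * ((d (c + 2) : ℕ) : ZMod p) ^ 2 = (x : ZMod p) ^ 3 := by
      have := (ZMod.intCast_zmod_eq_zero_iff_dvd _ p).2 hx
      push_cast at this
      exact sub_eq_zero.1 this
    have hnz : ∀ c', c' ≠ c → ((d c' : ℕ) : ZMod p) ≠ 0 := by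
      intro c' hc' h0
      rw [ZMod.natCast_eq_zero_iff] at h0
      exact hp.one_lt.ne' (Nat.dvd_one.1 ((hco c c' (Ne.symm hc')) ▸ Nat.dvd_gcd hpc h0))
    have hne1 : c + 1 ≠ c := by
      intro h'
      exact absurd (add_eq_left.1 h') (by decide)
    have hne2 : c + 2 ≠ c := by
      intro h'
      exact absurd (add_eq_left.1 h') (by decide)
    have h1 := hnz _ hne1
    have h2 := hnz _ hne2
    have hx0 : (x : ZMod p) ≠ 0 := by
      intro h0
      rw [h0] at hx'
      exact mul_ne_zero h1 (pow_ne_zero 2 h2) (by rw [hx']; ring)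
    have hs : ∀ c', ((d c' : ℕ) : ZMod p) * ((star (d c') : ℕ) : ZMod p) =
        ((rad (d c') : ℕ) : ZMod p) ^ 3 := by
      intro c'
      have : ((d c' * star (d c') : ℕ) : ZMod p) = ((rad (d c') ^ 3 : ℕ) : ZMod p) := by
        rw [mul_star (hcf c')]
      push_cast at this
      exact this
    set y : ZMod p := ((rad (d (c + 1)) : ℕ) : ZMod p) * ((rad (d (c + 2)) : ℕ) : ZMod p) ^ 2 /
      (x : ZMod p) with hy
    refine ⟨(y.val : ℤ), ?_⟩
    rw [← ZMod.intCast_zmod_eq_zero_iff_dvd]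
    push_cast
    rw [ZMod.natCast_zmod_val, sub_eq_zero]
    have e : (((d (c + 1) : ℕ) : ZMod p) * ((d (c + 2) : ℕ) : ZMod p) ^ 2) *
        (((star (d (c + 1)) : ℕ) : ZMod p) * ((star (d (c + 2)) : ℕ) : ZMod p) ^ 2) =
        (((rad (d (c + 1)) : ℕ) : ZMod p) * ((rad (d (c + 2)) : ℕ) : ZMod p) ^ 2) ^ 3 := by
      calc _ = (((d (c + 1) : ℕ) : ZMod p) * ((star (d (c + 1)) : ℕ) : ZMod p)) *
            (((d (c + 2) : ℕ) : ZMod p) * ((star (d (c + 2)) : ℕ) : ZMod p)) ^ 2 := by ring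
        _ = _ := by rw [hs, hs]; ring
    rw [hx'] at e
    rw [hy, div_pow, eq_div_iff (pow_ne_zero 3 hx0), ← e]
    ring
  obtain ⟨c, hc⟩ := h (fun c => star (d c)) hp1 hp2 hp3
  exact ⟨c, fun c' hc' => star_eq_one (hcf c') (hc c' hc')⟩

end Pool.Agent.R78.S3
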