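import Pool.Agent.R78.S3.Jac
import Pool.Agent.R78.S3.Star
import Pool.Agent.R78.S3.Ram
import Pool.Agent.R78.S3.Ex
import Pool.Agent.R419.CF.Weak

/-!
# The L-function of `y² + y = x³` twisted by the irreducible representation of degree two
-/

set_option autoImplicit false
set_option linter.unusedSectionVars false

open scoped Classical

namespace Pool.Agent.R78.S3

open Module NumberField IsDedekindDomain
open Pool.Agent.Y703.CT (Cls NoSplit WD EQ)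

/-! ### Point counts -/

theorem ap_cnt (D p : ℕ) : (Pool.Agent.W97.MT.ap (WD D) p : ℤ) = (p : ℤ) - cnt (p := p) (D : ZMod p) := by
  unfold Pool.Agent.W97.MT.ap Pool.Agent.W97.MT.affCount cnt
  have h : ∀ q : ZMod p × ZMod p,
      (((WD D).map (Int.castRingHom (ZMod p))).toAffine.Equation q.1 q.2) ↔
        q.2 ^ 2 + (D : ZMod p) * q.2 = q.1 ^ 3 := by
    intro q
    rw [Pool.Agent.Y703.CX.eqn_iff]
    simp
  simp only [h]

theorem ap_tr (D p : ℕ) : ((Pool.Agent.W97.MT.ap (WD D) p : ℤ) : ℂ) = tr (p := p) (D : ZMod p) := by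
  rw [ap_cnt]
  unfold tr
  push_cast
  rfl

theorem cnt_two {p : ℕ} [Fact p.Prime] (hm : p % 3 = 2) (d : ZMod p) : cnt d = p :=
  Pool.Agent.Y703.CX.cnt2 hm (fun y => y ^ 2 + d * y)

theorem disc_dvd {p : ℕ} (hp : p.Prime) (D : ℕ) : (p : ℤ) ∣ (WD (D : ℤ)).Δ ↔ p ∣ 3 * D := by
  have hpi : Prime (p : ℤ) := Nat.prime_iff_prime_int.1 hp
  rw [Pool.Agent.Y703.CX.WD_disc]
  have e : (-27 * (D : ℤ) ^ 4) = -(3 ^ 3 * (D : ℤ) ^ 4) := by ring
  have e2 : p ∣ 3 * D ↔ (p : ℤ) ∣ 3 * (D : ℤ) := by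
    rw [← Int.natCast_dvd_natCast]
    push_cast
    exact Iff.rfl
  rw [e, dvd_neg, e2]
  constructor
  · intro h
    rcases hpi.dvd_or_dvd h with h | h
    · exact Dvd.dvd.mul_right (hpi.dvd_of_dvd_pow h) _
    · exact Dvd.dvd.mul_left (hpi.dvd_of_dvd_pow h) _
  · intro h
    rcases hpi.dvd_or_dvd h with h | h
    · exact Dvd.dvd.mul_right (dvd_pow h (by norm_num)) _
    · exact Dvd.dvd.mul_left (dvd_pow h (by norm_num)) _

/-- the Euler factor of `E_D` -/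
noncomputable def ef (D p : ℕ) (s : ℂ) : ℂ :=
  (1 - (Pool.Agent.W97.MT.ap (WD D) p : ℂ) * (p : ℂ) ^ (-s) +
      (if ((p : ℕ) : ℤ) ∣ (WD D).Δ then 0 else (p : ℂ) ^ (1 - 2 * s)))⁻¹

lemma ef_bad {D p : ℕ} (hp : p.Prime) (h : p ∣ 3 * D) (s : ℂ) : ef D p s = 1 := by
  unfold ef
  rw [if_pos ((disc_dvd hp D).2 h), Pool.Agent.Y703.CX.ap_bad hp (by exact_mod_cast h)]
  simp

lemma ef_good {D p : ℕ} (hp : p.Prime) (h : ¬ p ∣ 3 * D) (s : ℂ) :
    ef D p s = (1 - tr (p := p) (D : ZMod p) * (p : ℂ) ^ (-s) + (p : ℂ) ^ (1 - 2 * s))⁻¹ := by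
  unfold ef
  rw [if_neg (fun h' => h ((disc_dvd hp D).1 h')), ap_tr]

/-- cubes and the Euler criterion -/
lemma cube_iff {p : ℕ} [Fact p.Prime] (hm : p % 3 = 1) {u : ZMod p} (hu : u ≠ 0) :
    (∃ c : ZMod p, c ^ 3 = u) ↔ u ^ ((p - 1) / 3) = 1 := by
  constructor
  · rintro ⟨c, rfl⟩
    have hc : c ≠ 0 := by
      rintro rfl
      exact hu (by ring)
    rw [← pow_mul, show 3 * ((p - 1) / 3) = p - 1 by omega]
    exact ZMod.pow_card_sub_one_eq_one hc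
  · intro h
    obtain ⟨g, hg⟩ := IsCyclic.exists_generator (α := (ZMod p)ˣ)
    obtain ⟨m, hm'⟩ : ∃ m : ℕ, g ^ m = Units.mk0 u hu := by
      have := hg (Units.mk0 u hu)
      rw [← mem_powers_iff_mem_zpowers] at this
      exact this
    have hord : orderOf g = p - 1 := by
      rw [orderOf_eq_card_of_forall_mem_zpowers hg, Nat.card_eq_fintype_card, ZMod.card_units]
    have h1 : g ^ (m * ((p - 1) / 3)) = 1 := by
      rw [pow_mul, hm']
      apply Units.ext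
      rw [Units.val_pow_eq_pow_val, Units.val_mk0, h, Units.val_one]
    have h2 := orderOf_dvd_of_pow_eq_one h1
    rw [hord] at h2
    have hp2 := (Fact.out : p.Prime).two_le
    obtain ⟨k, hk⟩ : ∃ k, p - 1 = 3 * k := ⟨(p - 1) / 3, by omega⟩
    have hk0 : 0 < k := by omega
    rw [hk, Nat.mul_div_cancel_left _ (by norm_num)] at h2
    obtain ⟨j, rfl⟩ := Nat.dvd_of_mul_dvd_mul_right hk0 h2
    refine ⟨((g ^ j : (ZMod p)ˣ) : ZMod p), ?_⟩
    have h3 : ((g ^ (3 * j) : (ZMod p)ˣ) : ZMod p) = u := by rw [hm', Units.val_mk0]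
    rw [← h3, mul_comm, pow_mul, ← Units.val_pow_eq_pow_val]

section main

variable {F : Type} [Field F] [NumberField F] {N : ℕ} {V : Type} [AddCommGroup V] [Module ℂ V]
  [FiniteDimensional ℂ V]

/-- **The local factor.** -/
theorem local_eq (hN : Cls N) (hgal : IsGalois ℚ F) {a t : 𝓞 F} {σ τ : F ≃ₐ[ℚ] F}
    (hG : Gi N a t σ τ) (ρ : Representation ℂ (F ≃ₐ[ℚ] F) V) (hirr : Irr ρ)
    (h2 : 2 ≤ finrank ℂ V) {p : ℕ} (hp : p.Prime) (h3 : p ≠ 3) {w : HeightOneSpectrum (𝓞 F)}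
    (hw : (p : 𝓞 F) ∈ w.asIdeal) {φ : F ≃ₐ[ℚ] F} (hφ : IsFr p w φ) (s : ℂ) :
    ef N p s * ef (star N) p s =
      (dd ρ (InI w) φ (tr (1 : ZMod p) * (p : ℂ) ^ (-s)) ((p : ℂ) ^ (1 - 2 * s)))⁻¹ := by
  have hfact := Fact.mk hp
  have hcf := cls_cf hN
  have h3p : ¬ p ∣ 3 := fun h => h3 ((Nat.prime_dvd_prime_iff_eq hp Nat.prime_three).1 h)
  have hpc : (p : ℂ) ≠ 0 := by exact_mod_cast hp.ne_zero
  have hy : (p : ℂ) ^ (1 - 2 * s) = p * ((p : ℂ) ^ (-s)) ^ 2 := by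
    rw [sub_eq_add_neg, Complex.cpow_add _ _ hpc, Complex.cpow_one, ← Complex.cpow_nat_mul]
    congr 2
    push_cast
    ring
  by_cases hd : p ∣ N
  · rw [ef_bad hp (Dvd.dvd.mul_left hd 3),
      ef_bad hp (Dvd.dvd.mul_left ((prime_dvd_star hcf hp).2 hd) 3),
      dd_ram hG.gen ρ hirr h2 (in_s hgal hG hp hw h3 hd (hcf.2 p hp)) (I := InI w)]
    · simp
    · intro g h hg hh
      exact (w.asIdeal.inertia (F ≃ₐ[ℚ] F)).mul_mem hg hh
  · have hd' : ¬ p ∣ star N := fun h => hd ((prime_dvd_star hcf hp).1 h)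
    have g1 : ¬ p ∣ 3 * N := fun h => ((Nat.Prime.dvd_mul hp).1 h).elim h3p hd
    have g2 : ¬ p ∣ 3 * star N := fun h => ((Nat.Prime.dvd_mul hp).1 h).elim h3p hd'
    rw [ef_good hp g1, ef_good hp g2]
    have hI : ∀ g, InI w g ↔ g = 1 := in_one hG hp hw h3 hd
    have hn0 : ((N : ℕ) : ZMod p) ≠ 0 := by
      rw [Ne, ZMod.natCast_eq_zero_iff]; exact hd
    have hs0 : ((star N : ℕ) : ZMod p) ≠ 0 := by
      rw [Ne, ZMod.natCast_eq_zero_iff]; exact hd'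
    have hmul : ((N : ℕ) : ZMod p) * ((star N : ℕ) : ZMod p) = ((rad N : ℕ) : ZMod p) ^ 3 := by
      rw [← Nat.cast_mul, mul_star hcf, Nat.cast_pow]
    have hr0 : ((rad N : ℕ) : ZMod p) ≠ 0 := by
      intro h0
      rw [h0] at hmul
      exact mul_ne_zero hn0 hs0 (by rw [hmul]; ring)
    have hmod : p % 3 = 1 ∨ p % 3 = 2 := by
      have : p % 3 ≠ 0 := fun h => h3 ((Nat.prime_dvd_prime_iff_eq Nat.prime_three hp).1
        (Nat.dvd_of_mod_eq_zero h)).symm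
      omega
    rcases hmod with hm | hm
    · have hcrit : (p : ℤ) ∣ (N : ℤ) ^ ((p - 1) / 3) - 1 ↔
          ∃ c : ZMod p, c ^ 3 = ((N : ℕ) : ZMod p) := by
        rw [cube_iff hm hn0, ← ZMod.intCast_zmod_eq_zero_iff_dvd]
        push_cast
        rw [sub_eq_zero]
      by_cases hc : ∃ c : ZMod p, c ^ 3 = ((N : ℕ) : ZMod p)
      · have hφ1 := fr_one hG hp hw hm hd (hcrit.2 hc) hφ
        obtain ⟨c, hc⟩ := hc
        have hc0 : c ≠ 0 := by
          rintro rfl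
          exact hn0 (by rw [← hc]; ring)
        have e1 : tr ((N : ℕ) : ZMod p) = tr (1 : ZMod p) := tr_cube hm hn0 hc0 hc.symm
        have e2 : tr ((star N : ℕ) : ZMod p) = tr (1 : ZMod p) := by
          refine tr_cube hm (r := (rad N : ZMod p) / c) hs0 (div_ne_zero hr0 hc0) ?_
          rw [div_pow, hc, ← hmul, mul_div_cancel_left₀ _ hn0]
        rw [hφ1, dd_id hG.gen ρ hirr h2 hI, e1, e2, pow_two, mul_inv]
      · have hφ1 := fr_ne hG hp hw hm hd (fun h => hc (hcrit.1 h)) hφ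
        obtain ⟨e1, e2⟩ := tr_rel hm hn0 hs0 hmul hc
        rw [dd_cyc hG.gen ρ hirr h2 hI hφ1, ← mul_inv, hy]
        congr 1
        linear_combination (-((p : ℂ) ^ (-s)) - p * ((p : ℂ) ^ (-s)) ^ 3) * e1 +
          ((p : ℂ) ^ (-s)) ^ 2 * e2
    · have e : ∀ d : ZMod p, tr d = 0 := fun d => by
        unfold tr
        rw [cnt_two hm d, sub_self]
      rw [e, e, e, zero_mul, sub_zero, dd_trans hG.gen ρ hirr h2 hI (fr_two hG hp hw hm hφ),
        pow_two, mul_inv]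

end main

end Pool.Agent.R78.S3
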