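import Pool.Agent.R78.S3.Rep

/-!
# The local factors
-/

set_option autoImplicit false

open scoped Classical

namespace Pool.Agent.R78.S3

open Module

variable {G V : Type} [Group G] [Fintype G] [AddCommGroup V] [Module ℂ V]

/-- the projector on the invariants of `I` -/
noncomputable def avg (ρ : Representation ℂ G V) (I : G → Prop) : V →ₗ[ℂ] V :=
  (((Finset.univ.filter I).card : ℂ))⁻¹ • ∑ g ∈ Finset.univ.filter I, ρ g

/-- `det (1 - x ρ(φ) + y ρ(φ)²)` on the invariants of `I` -/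
noncomputable def dd (ρ : Representation ℂ G V) (I : G → Prop) (φ : G) (x y : ℂ) : ℂ :=
  LinearMap.det (P2 (ρ φ * avg ρ I) x y)

lemma avg_one (ρ : Representation ℂ G V) {I : G → Prop} (hI : ∀ g, I g ↔ g = 1) : avg ρ I = 1 := by
  unfold avg
  have : Finset.univ.filter I = {1} := by
    ext g
    simp [hI]
  rw [this]
  simp

lemma dd_one (ρ : Representation ℂ G V) {I : G → Prop} (hI : ∀ g, I g ↔ g = 1) (φ : G) (x y : ℂ) :
    dd ρ I φ x y = LinearMap.det (P2 (ρ φ) x y) := by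
  unfold dd
  rw [avg_one ρ hI, mul_one]

section irr
variable [FiniteDimensional ℂ V] {σ τ : G}

lemma avg_zero (hg : Gen σ τ) (ρ : Representation ℂ G V) (hirr : Irr ρ) (h2 : 2 ≤ finrank ℂ V)
    {I : G → Prop} (hσ : I σ) (hI : ∀ g h, I g → I h → I (g * h)) : avg ρ I = 0 := by
  obtain ⟨z, b, hz, h1, h3, -, -⟩ := irr_two hg ρ hirr h2
  have hinv : ρ σ * (∑ g ∈ Finset.univ.filter I, ρ g) = ∑ g ∈ Finset.univ.filter I, ρ g := by
    rw [Finset.mul_sum]
    refine Finset.sum_bij (fun g _ => σ * g) ?_ ?_ ?_ ?_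
    · intro g hg'
      rw [Finset.mem_filter] at hg' ⊢
      exact ⟨Finset.mem_univ _, hI _ _ hσ hg'.2⟩
    · intro a _ c _ h
      exact mul_left_cancel h
    · intro g hg'
      rw [Finset.mem_filter] at hg'
      refine ⟨σ ^ 2 * g, ?_, ?_⟩
      · rw [Finset.mem_filter]
        refine ⟨Finset.mem_univ _, ?_⟩
        rw [pow_two, mul_assoc]
        exact hI _ _ hσ (hI _ _ hσ hg'.2)
      · rw [← mul_assoc, ← pow_succ', hg.s3, one_mul]
    · intro g _
      rw [map_mul]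
  have hz1 : z ≠ 1 := by
    rintro rfl
    norm_num at hz
  have hz3 : z ^ 3 = 1 := by linear_combination (z - 1) * hz
  have hz2 : z ^ 2 ≠ 1 := by
    intro h
    apply hz1
    calc z = z ^ 2 * z := by rw [h, one_mul]
      _ = z ^ 3 := by ring
      _ = 1 := hz3
  -- no invariants of σ
  have hno : ∀ v : V, ρ σ v = v → v = 0 := by
    intro v hv
    have hd := b.sum_repr v
    rw [Fin.sum_univ_two] at hd
    have hv' : ρ σ v = (b.repr v 0 * z) • b 0 + (b.repr v 1 * z ^ 2) • b 1 := by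
      conv_lhs => rw [← hd]
      rw [map_add, map_smul, map_smul, h1, h3, smul_smul, smul_smul]
    have e0 : b.repr v 0 * z = b.repr v 0 := by
      have := congrArg (fun u => b.repr u 0) (hv'.symm.trans hv)
      simpa using this
    have e1 : b.repr v 1 * z ^ 2 = b.repr v 1 := by
      have := congrArg (fun u => b.repr u 1) (hv'.symm.trans hv)
      simpa using this
    have f0 : b.repr v 0 = 0 := by
      have : b.repr v 0 * (z - 1) = 0 := by linear_combination e0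
      exact (mul_eq_zero.1 this).resolve_right (sub_ne_zero.2 hz1)
    have f1 : b.repr v 1 = 0 := by
      have : b.repr v 1 * (z ^ 2 - 1) = 0 := by linear_combination e1
      exact (mul_eq_zero.1 this).resolve_right (sub_ne_zero.2 hz2)
    rw [← hd, f0, f1, zero_smul, zero_smul, add_zero]
  have hs : (∑ g ∈ Finset.univ.filter I, ρ g) = 0 := by
    ext v
    rw [LinearMap.zero_apply]
    apply hno
    rw [← Module.End.mul_apply, hinv]
  unfold avg
  rw [hs, smul_zero]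

/-- ramified with `σ` in the inertia group -/
theorem dd_ram (hg : Gen σ τ) (ρ : Representation ℂ G V) (hirr : Irr ρ) (h2 : 2 ≤ finrank ℂ V)
    {I : G → Prop} (hσ : I σ) (hI : ∀ g h, I g → I h → I (g * h)) (φ : G) (x y : ℂ) :
    dd ρ I φ x y = 1 := by
  obtain ⟨z, b, -⟩ := irr_two hg ρ hirr h2
  unfold dd
  rw [avg_zero hg ρ hirr h2 hσ hI, mul_zero]
  exact det_zero b x y

/-- the identity -/
theorem dd_id (hg : Gen σ τ) (ρ : Representation ℂ G V) (hirr : Irr ρ) (h2 : 2 ≤ finrank ℂ V)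
    {I : G → Prop} (hI : ∀ g, I g ↔ g = 1) (x y : ℂ) :
    dd ρ I 1 x y = (1 - x + y) ^ 2 := by
  obtain ⟨z, b, -⟩ := irr_two hg ρ hirr h2
  rw [dd_one ρ hI, map_one, det_diag b (A := 1) (α := 1) (β := 1) (by simp) (by simp)]
  ring

lemma cyc_id {z : ℂ} (hz : z ^ 2 + z + 1 = 0) (x y : ℂ) :
    (1 - x * z + y * z ^ 2) * (1 - x * z ^ 2 + y * (z ^ 2) ^ 2) =
      1 + x + (x ^ 2 - y) + x * y + y ^ 2 := by
  have hz3 : z ^ 3 = 1 := by linear_combination (z - 1) * hz
  linear_combination (-x + y - x * y) * hz +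
    (y * z + x ^ 2 - x * y * (z + z ^ 2) + y ^ 2 * (z ^ 3 + 1)) * hz3

/-- a 3-cycle -/
theorem dd_cyc (hg : Gen σ τ) (ρ : Representation ℂ G V) (hirr : Irr ρ) (h2 : 2 ≤ finrank ℂ V)
    {I : G → Prop} (hI : ∀ g, I g ↔ g = 1) {φ : G} (hφ : φ = σ ∨ φ = σ ^ 2) (x y : ℂ) :
    dd ρ I φ x y = 1 + x + (x ^ 2 - y) + x * y + y ^ 2 := by
  obtain ⟨z, b, hz, h1, h3, -, -⟩ := irr_two hg ρ hirr h2
  rw [dd_one ρ hI]
  rcases hφ with rfl | rfl
  · rw [det_diag b h1 h3]
    exact cyc_id hz x y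
  · rw [det_diag b (A := ρ (σ ^ 2)) (α := z ^ 2) (β := (z ^ 2) ^ 2)]
    · exact cyc_id (z := z ^ 2) (by linear_combination (z ^ 2 - z + 1) * hz) x y
    · rw [pow_two, map_mul, Module.End.mul_apply, h1, map_smul, h1, smul_smul, pow_two]
    · rw [pow_two, map_mul, Module.End.mul_apply, h3, map_smul, h3, smul_smul, pow_two (z ^ 2)]

/-- a transposition -/
theorem dd_trans (hg : Gen σ τ) (ρ : Representation ℂ G V) (hirr : Irr ρ) (h2 : 2 ≤ finrank ℂ V)
    {I : G → Prop} (hI : ∀ g, I g ↔ g = 1) {φ : G} (hφ : φ ^ 2 = 1) (y : ℂ) :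
    dd ρ I φ 0 y = (1 + y) ^ 2 := by
  obtain ⟨z, b, -⟩ := irr_two hg ρ hirr h2
  rw [dd_one ρ hI, det_inv b]
  rw [← map_mul, ← pow_two, hφ, map_one]

end irr

end Pool.Agent.R78.S3
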