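import Pool.Agent.R78.S3.Fac

/-!
# The Galois group of `ℚ(∛N, √-3)`
-/

set_option autoImplicit false

open scoped Classical

namespace Pool.Agent.R78.S3

open Module Polynomial

/-- `F` is a Galois extension of `ℚ` of degree `6` that contains a cube root `θ` of `N` -/
structure Fld (F : Type) [Field F] [NumberField F] (N : ℕ) (θ : F) : Prop where
  gal : IsGalois ℚ F
  deg : finrank ℚ F = 6
  cube : θ ^ 3 = (N : F)

variable {F : Type} [Field F] [NumberField F] {N : ℕ} {θ : F}

lemma irr_poly (hN : ∀ b : ℚ, b ^ 3 ≠ (N : ℚ)) : Irreducible (X ^ 3 - C (N : ℚ)) :=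
  (X_pow_sub_C_irreducible_iff_of_prime Nat.prime_three).2 hN

lemma minpoly_eq' (h : θ ^ 3 = (N : F)) (hN : ∀ b : ℚ, b ^ 3 ≠ (N : ℚ)) :
    minpoly ℚ θ = X ^ 3 - C (N : ℚ) := by
  symm
  refine minpoly.eq_of_irreducible_of_monic (irr_poly hN) ?_
    (Polynomial.monic_X_pow_sub_C _ (by norm_num))
  simp only [map_sub, map_pow, Polynomial.aeval_X, Polynomial.aeval_C, h]
  simp

lemma minpoly_eq (h : Fld F N θ) (hN : ∀ b : ℚ, b ^ 3 ≠ (N : ℚ)) :
    minpoly ℚ θ = X ^ 3 - C (N : ℚ) := minpoly_eq' h.cube hN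

lemma exists_omega' [IsGalois ℚ F] (hcube : θ ^ 3 = (N : F)) (hN : ∀ b : ℚ, b ^ 3 ≠ (N : ℚ)) :
    ∃ ω : F, ω ^ 2 + ω + 1 = 0 := by
  have hm := minpoly_eq' hcube hN
  have hsp : ((minpoly ℚ θ).map (algebraMap ℚ F)).Splits := Normal.splits inferInstance θ
  have hsep : (minpoly ℚ θ).Separable := Algebra.IsSeparable.isSeparable ℚ θ
  have hcard := Polynomial.card_rootSet_eq_natDegree hsep hsp
  rw [hm, natDegree_X_pow_sub_C] at hcard
  have hex : ∃ θ' ∈ (X ^ 3 - C (N : ℚ)).rootSet F, θ' ≠ θ := by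
    by_contra hc
    push Not at hc
    have h1 : Fintype.card ((X ^ 3 - C (N : ℚ)).rootSet F) ≤ 1 := by
      rw [Fintype.card_le_one_iff]
      rintro ⟨a, ha⟩ ⟨b, hb⟩
      exact Subtype.ext ((hc a ha).trans (hc b hb).symm)
    omega
  obtain ⟨θ', h1, h2⟩ := hex
  have h3 : θ' ^ 3 = (N : F) := by
    rw [Polynomial.mem_rootSet] at h1
    have := h1.2
    simp only [map_sub, map_pow, Polynomial.aeval_X, Polynomial.aeval_C] at this
    rw [sub_eq_zero] at this
    rw [this]
    simp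
  have hN0 : (N : F) ≠ 0 := by
    intro h0
    have : N = 0 := by exact_mod_cast h0
    exact hN 0 (by rw [this]; norm_num)
  have hθ0 : θ ≠ 0 := by
    rintro rfl
    apply hN0
    rw [← hcube]
    norm_num
  refine ⟨θ' / θ, ?_⟩
  have h4 : (θ' / θ) ^ 3 = 1 := by
    rw [div_pow, h3, hcube, div_self hN0]
  have h5 : θ' / θ ≠ 1 := by
    intro h'
    exact h2 ((div_eq_one_iff_eq hθ0).1 h')
  have h6 : (θ' / θ - 1) * ((θ' / θ) ^ 2 + θ' / θ + 1) = 0 := by linear_combination h4
  exact (mul_eq_zero.1 h6).resolve_left (sub_ne_zero.2 h5)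

lemma exists_omega (h : Fld F N θ) (hN : ∀ b : ℚ, b ^ 3 ≠ (N : ℚ)) :
    ∃ ω : F, ω ^ 2 + ω + 1 = 0 := by
  have := h.gal
  exact exists_omega' h.cube hN

lemma deg_omega {ω : F} (hω : ω ^ 2 + ω + 1 = 0) :
    finrank ℚ (IntermediateField.adjoin ℚ {ω}) = 2 := by
  have hmω : minpoly ℚ ω = X ^ 2 + X + 1 := by
    symm
    have hirr : Irreducible (X ^ 2 + X + 1 : ℚ[X]) := by
      have hdeg : (X ^ 2 + X + 1 : ℚ[X]).natDegree = 2 := by compute_degree!
      rw [Polynomial.irreducible_iff_roots_eq_zero_of_degree_le_three (by rw [hdeg])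
        (by rw [hdeg]; norm_num)]
      rw [Multiset.eq_zero_iff_forall_notMem]
      intro a ha
      have := (Polynomial.mem_roots'.1 ha).2
      simp only [IsRoot.def, eval_add, eval_pow, eval_X, eval_one] at this
      nlinarith [sq_nonneg (a + 1 / 2)]
    refine minpoly.eq_of_irreducible_of_monic hirr ?_ (by monicity!)
    simp only [map_add, map_pow, Polynomial.aeval_X, map_one]
    exact hω
  rw [IntermediateField.adjoin.finrank (Algebra.IsIntegral.isIntegral ω), hmω]
  compute_degree!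

/-- an automorphism that fixes `ω` and `θ` is the identity -/
lemma fix (h : Fld F N θ) (hN : ∀ b : ℚ, b ^ 3 ≠ (N : ℚ)) {ω : F} (hω : ω ^ 2 + ω + 1 = 0)
    (g : F ≃ₐ[ℚ] F) (h1 : g ω = ω) (h2 : g θ = θ) : g = 1 := by
  have := h.gal
  set K := IntermediateField.fixedField (Subgroup.zpowers g) with hK
  have hmem : ∀ x : F, g x = x → x ∈ K := by
    intro x hx
    rw [hK, IntermediateField.mem_fixedField_iff]
    intro f hf
    obtain ⟨n, rfl⟩ := Subgroup.mem_zpowers_iff.1 hf
    have : g ∈ MulAction.stabilizer (F ≃ₐ[ℚ] F) x := hx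
    exact Subgroup.zpow_mem _ this n
  have hθ : IntermediateField.adjoin ℚ {θ} ≤ K := by
    rw [IntermediateField.adjoin_simple_le_iff]
    exact hmem _ h2
  have hω' : IntermediateField.adjoin ℚ {ω} ≤ K := by
    rw [IntermediateField.adjoin_simple_le_iff]
    exact hmem _ h1
  have hd3 : finrank ℚ (IntermediateField.adjoin ℚ {θ}) = 3 := by
    rw [IntermediateField.adjoin.finrank (Algebra.IsIntegral.isIntegral θ), minpoly_eq h hN,
      natDegree_X_pow_sub_C]
  have hd2 : finrank ℚ (IntermediateField.adjoin ℚ {ω}) = 2 := deg_omega hω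
  have h3 : 3 ∣ finrank ℚ K := by
    rw [← hd3]
    exact IntermediateField.finrank_dvd_of_le_right hθ
  have h2' : 2 ∣ finrank ℚ K := by
    rw [← hd2]
    exact IntermediateField.finrank_dvd_of_le_right hω'
  have h6 : finrank ℚ K = 6 := by
    have h7 : finrank ℚ K ∣ finrank ℚ F := ⟨_, (finrank_mul_finrank ℚ K F).symm⟩
    rw [h.deg] at h7
    have h8 := Nat.le_of_dvd (by norm_num) h7
    have h9 : 0 < finrank ℚ K := finrank_pos
    omega
  have hKF : finrank K F = 1 := by
    have := finrank_mul_finrank ℚ K F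
    rw [h6, h.deg] at this
    omega
  have hcard : Nat.card (Subgroup.zpowers g) = 1 := by
    rw [← hKF, hK, IntermediateField.finrank_fixedField_eq_card]
  rw [Nat.card_zpowers] at hcard
  exact orderOf_eq_one_iff.1 hcard

end Pool.Agent.R78.S3
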