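import Pool.Agent.R78.S3.Gal

/-!
# Generators of the Galois group of `ℚ(∛N, √-3)`
-/

set_option autoImplicit false

open scoped Classical

namespace Pool.Agent.R78.S3

open Module Polynomial

variable {F : Type} [Field F] [NumberField F] {N : ℕ} {θ : F}

lemma om_ne {ω : F} (hω : ω ^ 2 + ω + 1 = 0) : ω ≠ 1 := by
  rintro rfl
  norm_num at hω

lemma om3 {ω : F} (hω : ω ^ 2 + ω + 1 = 0) : ω ^ 3 = 1 := by linear_combination (ω - 1) * hω

lemma om_cases {ω z : F} (hω : ω ^ 2 + ω + 1 = 0) (hz : z ^ 2 + z + 1 = 0) : z = ω ∨ z = ω ^ 2 := by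
  have h : (z - ω) * (z - ω ^ 2) = 0 := by
    linear_combination hz - z * hω + (ω - 1) * hω
  rcases mul_eq_zero.1 h with h | h
  · exact Or.inl (sub_eq_zero.1 h)
  · exact Or.inr (sub_eq_zero.1 h)

lemma th_cases {ω z : F} (hω : ω ^ 2 + ω + 1 = 0) (hz : z ^ 3 = θ ^ 3) :
    z = θ ∨ z = ω * θ ∨ z = ω ^ 2 * θ := by
  have h3 := om3 hω
  have h : (z - θ) * ((z - ω * θ) * (z - ω ^ 2 * θ)) = 0 := by
    linear_combination hz - (z ^ 2 * θ - z * θ ^ 2) * hω + (z * θ ^ 2 - θ ^ 3) * h3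
  rcases mul_eq_zero.1 h with h | h
  · exact Or.inl (sub_eq_zero.1 h)
  · rcases mul_eq_zero.1 h with h | h
    · exact Or.inr (Or.inl (sub_eq_zero.1 h))
    · exact Or.inr (Or.inr (sub_eq_zero.1 h))

lemma g_om {ω : F} (hω : ω ^ 2 + ω + 1 = 0) (g : F ≃ₐ[ℚ] F) : g ω = ω ∨ g ω = ω ^ 2 := by
  refine om_cases hω ?_
  rw [← map_pow, ← map_add, ← map_one g, ← map_add, hω, map_zero]

lemma g_th (h : Fld F N θ) {ω : F} (hω : ω ^ 2 + ω + 1 = 0) (g : F ≃ₐ[ℚ] F) :
    g θ = θ ∨ g θ = ω * θ ∨ g θ = ω ^ 2 * θ := by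
  refine th_cases hω ?_
  rw [← map_pow, h.cube, map_natCast]

/-- the codes of the automorphisms -/
noncomputable def code (ω θ : F) (g : F ≃ₐ[ℚ] F) : Bool × Fin 3 :=
  (if g ω = ω then true else false, if g θ = θ then 0 else if g θ = ω * θ then 1 else 2)

lemma th_ne (h : Fld F N θ) (hN : ∀ b : ℚ, b ^ 3 ≠ (N : ℚ)) : θ ≠ 0 := by
  rintro rfl
  have h1 := h.cube
  have h2 : (N : F) = 0 := by rw [← h1]; norm_num
  have h3 : N = 0 := by exact_mod_cast h2
  exact hN 0 (by rw [h3]; norm_num)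

lemma code_inj (h : Fld F N θ) (hN : ∀ b : ℚ, b ^ 3 ≠ (N : ℚ)) {ω : F} (hω : ω ^ 2 + ω + 1 = 0) :
    Function.Injective (code ω θ) := by
  intro g g' hgg
  have h1 : g ω = g' ω := by
    have := congrArg Prod.fst hgg
    unfold code at this
    by_cases c1 : g ω = ω <;> by_cases c2 : g' ω = ω <;> simp only [c1, c2] at this ⊢ <;> try simp at this
    rw [(g_om hω g).resolve_left c1, (g_om hω g').resolve_left c2]
  have h2 : g θ = g' θ := by
    have := congrArg Prod.snd hgg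
    unfold code at this
    have hne1 : ω * θ ≠ θ := by
      intro h'
      have : (ω - 1) * θ = 0 := by rw [sub_mul, h', one_mul, sub_self]
      rcases mul_eq_zero.1 this with h'' | h''
      · exact om_ne hω (sub_eq_zero.1 h'')
      · exact th_ne h hN h''
    by_cases c1 : g θ = θ
    · by_cases c2 : g' θ = θ
      · rw [c1, c2]
      · simp only [c1, c2, if_true, if_false] at this
        by_cases c3 : g' θ = ω * θ
        · simp [c3] at this
        · simp [c3] at this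
    · by_cases c2 : g' θ = θ
      · simp only [c1, c2, if_true, if_false] at this
        by_cases c3 : g θ = ω * θ
        · simp [c3] at this
        · simp [c3] at this
      · simp only [c1, c2, if_false] at this
        by_cases c3 : g θ = ω * θ
        · by_cases c4 : g' θ = ω * θ
          · rw [c3, c4]
          · simp [c3, c4] at this
        · by_cases c4 : g' θ = ω * θ
          · simp [c3, c4] at this
          · rw [((g_th h hω g).resolve_left c1).resolve_left c3,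
              ((g_th h hω g').resolve_left c2).resolve_left c4]
  have h3 : g'⁻¹ * g = 1 := by
    refine fix h hN hω _ ?_ ?_
    · rw [AlgEquiv.mul_apply, h1]
      exact g'.symm_apply_apply ω
    · rw [AlgEquiv.mul_apply, h2]
      exact g'.symm_apply_apply θ
  exact (inv_mul_eq_one.1 h3).symm

lemma code_surj (h : Fld F N θ) (hN : ∀ b : ℚ, b ^ 3 ≠ (N : ℚ)) {ω : F} (hω : ω ^ 2 + ω + 1 = 0) :
    Function.Surjective (code ω θ) := by
  have := h.gal
  have hc : Nat.card (F ≃ₐ[ℚ] F) = Nat.card (Bool × Fin 3) := by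
    rw [IsGalois.card_aut_eq_finrank, h.deg]
    simp
  exact ((Nat.bijective_iff_injective_and_card _).2 ⟨code_inj h hN hω, hc⟩).2

/-- generators -/
structure GenF (ω θ : F) (σ τ : F ≃ₐ[ℚ] F) : Prop where
  sw : σ ω = ω
  sth : σ θ = ω * θ
  tw : τ ω = ω ^ 2
  tth : τ θ = θ

lemma exists_gen (h : Fld F N θ) (hN : ∀ b : ℚ, b ^ 3 ≠ (N : ℚ)) {ω : F}
    (hω : ω ^ 2 + ω + 1 = 0) : ∃ σ τ : F ≃ₐ[ℚ] F, GenF ω θ σ τ := by
  obtain ⟨σ, hσ⟩ := code_surj h hN hω (true, 1)
  obtain ⟨τ, hτ⟩ := code_surj h hN hω (false, 0)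
  refine ⟨σ, τ, ?_, ?_, ?_, ?_⟩
  · have := congrArg Prod.fst hσ
    unfold code at this
    by_contra hc
    simp [hc] at this
  · have := congrArg Prod.snd hσ
    unfold code at this
    by_cases c1 : σ θ = θ
    · simp [c1] at this
    · by_contra hc
      simp [c1, hc] at this
  · have := congrArg Prod.fst hτ
    unfold code at this
    refine (g_om hω τ).resolve_left fun hc => ?_
    simp [hc] at this
  · have := congrArg Prod.snd hτ
    unfold code at this
    by_contra hc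
    by_cases c1 : τ θ = ω * θ
    · simp only [if_neg hc, if_pos c1] at this
      exact absurd this (by decide)
    · simp only [if_neg hc, if_neg c1] at this
      exact absurd this (by decide)

lemma s_pow {ω : F} {σ τ : F ≃ₐ[ℚ] F} (hg : GenF ω θ σ τ) (i : ℕ) :
    (σ ^ i) ω = ω ∧ (σ ^ i) θ = ω ^ i * θ := by
  induction i with
  | zero => simp
  | succ i ih =>
    rw [pow_succ', AlgEquiv.mul_apply, AlgEquiv.mul_apply, ih.1, ih.2, map_mul, map_pow, hg.sw,
      hg.sth]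
    exact ⟨rfl, by ring⟩

lemma gen_of (h : Fld F N θ) (hN : ∀ b : ℚ, b ^ 3 ≠ (N : ℚ)) {ω : F}
    (hω : ω ^ 2 + ω + 1 = 0) {σ τ : F ≃ₐ[ℚ] F} (hg : GenF ω θ σ τ) : Gen σ τ := by
  have h3 := om3 hω
  have ext : ∀ g g' : F ≃ₐ[ℚ] F, g ω = g' ω → g θ = g' θ → g = g' := by
    intro g g' h1 h2
    have h3 : g'⁻¹ * g = 1 := by
      refine fix h hN hω _ ?_ ?_
      · rw [AlgEquiv.mul_apply, h1]
        exact g'.symm_apply_apply ω
      · rw [AlgEquiv.mul_apply, h2]
        exact g'.symm_apply_apply θ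
    exact (inv_mul_eq_one.1 h3).symm
  refine ⟨?_, ?_, ?_, ?_⟩
  · refine ext _ _ ?_ ?_
    · rw [(s_pow hg 3).1]; rfl
    · rw [(s_pow hg 3).2, h3, one_mul]; rfl
  · refine ext _ _ ?_ ?_
    · rw [pow_two, AlgEquiv.mul_apply, hg.tw, map_pow, hg.tw]
      show (ω ^ 2) ^ 2 = ω
      linear_combination ω * h3
    · rw [pow_two, AlgEquiv.mul_apply, hg.tth, hg.tth]; rfl
  · refine ext _ _ ?_ ?_
    · rw [AlgEquiv.mul_apply, AlgEquiv.mul_apply, hg.sw, hg.tw, map_pow, (s_pow hg 2).1]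
    · rw [AlgEquiv.mul_apply, AlgEquiv.mul_apply, hg.sth, map_mul, hg.tw, hg.tth, (s_pow hg 2).2]
  · intro g
    have key : ∀ (i j : ℕ), g ω = (τ ^ j) ω → (τ ^ j) θ = θ → g θ = ω ^ i * θ → (σ ^ i) ((τ ^ j) ω) = (τ ^ j) ω →
        g = σ ^ i * τ ^ j := by
      intro i j e1 e2 e3 e4
      refine ext _ _ ?_ ?_
      · rw [AlgEquiv.mul_apply, e1, e4]
      · rw [AlgEquiv.mul_apply, e2, e3, (s_pow hg i).2]
    have hθ : ∃ i : ℕ, g θ = ω ^ i * θ := by
      rcases g_th h hω g with h' | h' | h'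
      · exact ⟨0, by rw [h', pow_zero, one_mul]⟩
      · exact ⟨1, by rw [h', pow_one]⟩
      · exact ⟨2, h'⟩
    obtain ⟨i, hi⟩ := hθ
    rcases g_om hω g with h' | h'
    · exact ⟨i, 0, key i 0 (by simpa using h') (by simp) hi (by simpa using (s_pow hg i).1)⟩
    · refine ⟨i, 1, key i 1 ?_ ?_ hi ?_⟩
      · rw [pow_one, hg.tw, h']
      · rw [pow_one, hg.tth]
      · rw [pow_one, hg.tw, map_pow, (s_pow hg i).1]

end Pool.Agent.R78.S3
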