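import Mathlib

/-!
# Point counts on `y² + d y = x³` over `𝔽_p`, `p ≡ 1` modulo `3`, and Jacobi sums
-/

set_option autoImplicit false

open scoped Classical

namespace Pool.Agent.R78.S3

/-- the number of the affine points of `y² + d y = x³` over `𝔽_p` -/
noncomputable def cnt {p : ℕ} (d : ZMod p) : ℕ :=
  Nat.card {q : ZMod p × ZMod p // q.2 ^ 2 + d * q.2 = q.1 ^ 3}

/-- `a(d) = p - #`, the trace -/
noncomputable def tr {p : ℕ} (d : ZMod p) : ℂ := (p : ℂ) - ((cnt d : ℕ) : ℂ)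

variable {p : ℕ} [Fact p.Prime]

theorem exists_root (hp : p % 3 = 1) : ∃ ζ : ZMod p, IsPrimitiveRoot ζ 3 := by
  have h1 : 3 ∣ Fintype.card (ZMod p)ˣ := by
    rw [ZMod.card_units]
    omega
  obtain ⟨x, hx⟩ := exists_prime_orderOf_dvd_card 3 h1
  refine ⟨(x : ZMod p), ?_⟩
  rw [IsPrimitiveRoot.coe_units_iff]
  rw [← hx]
  exact IsPrimitiveRoot.orderOf x

theorem card_cube_one (hp : p % 3 = 1) : Nat.card {x : ZMod p // x ^ 3 = 1} = 3 := by
  obtain ⟨ζ, hζ⟩ := exists_root hp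
  have h1 := hζ.card_nthRootsFinset
  have h2 : Nat.card {x : ZMod p // x ^ 3 = 1} =
      (Polynomial.nthRootsFinset 3 (1 : ZMod p)).card := by
    rw [Nat.card_eq_fintype_card, Fintype.card_subtype]
    congr 1
    ext x
    rw [Finset.mem_filter, Polynomial.mem_nthRootsFinset (by norm_num)]
    simp
  rw [h2, h1]

theorem card_cube (hp : p % 3 = 1) {u : ZMod p} (hu : u ≠ 0) {c : ZMod p} (hc : c ^ 3 = u) :
    Nat.card {x : ZMod p // x ^ 3 = u} = 3 := by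
  have hc0 : c ≠ 0 := by
    rintro rfl
    exact hu (by rw [← hc]; ring)
  have e1 : ∀ x : {x : ZMod p // x ^ 3 = u}, (x.1 / c) ^ 3 = 1 := fun x => by
    rw [div_pow, x.2, hc, div_self hu]
  have e2 : ∀ x : {x : ZMod p // x ^ 3 = 1}, (x.1 * c) ^ 3 = u := fun x => by
    rw [mul_pow, x.2, hc, one_mul]
  let f : {x : ZMod p // x ^ 3 = u} ≃ {x : ZMod p // x ^ 3 = 1} :=
    { toFun := fun x => ⟨x.1 / c, e1 x⟩
      invFun := fun x => ⟨x.1 * c, e2 x⟩
      left_inv := fun x => Subtype.ext (div_mul_cancel₀ _ hc0)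
      right_inv := fun x => Subtype.ext (mul_div_cancel_right₀ _ hc0) }
  exact (Nat.card_congr f).trans (card_cube_one hp)

theorem cube_of_char {χ : MulChar (ZMod p) ℂ} (h3 : χ ^ 3 = 1) (h1 : χ ≠ 1) {u : ZMod p}
    (hu : u ≠ 0) (h : χ u = 1) : ∃ c : ZMod p, c ^ 3 = u := by
  obtain ⟨g, hg⟩ := IsCyclic.exists_generator (α := (ZMod p)ˣ)
  have hne : χ (g : ZMod p) ≠ 1 := by
    intro hg1
    apply h1
    ext a
    obtain ⟨n, hn⟩ := Subgroup.mem_zpowers_iff.1 (hg a)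
    rw [MulChar.one_apply_coe, ← hn]
    have : χ ((g ^ n : (ZMod p)ˣ) : ZMod p) = (χ (g : ZMod p)) ^ n := by
      have e1 : χ ((g ^ n : (ZMod p)ˣ) : ZMod p) = ((χ.toUnitHom (g ^ n) : ℂˣ) : ℂ) := by
        rw [MulChar.coe_toUnitHom]
      have e2 : χ (g : ZMod p) = ((χ.toUnitHom g : ℂˣ) : ℂ) := by
        rw [MulChar.coe_toUnitHom]
      rw [e1, map_zpow, e2, Units.val_zpow_eq_zpow_val]
    rw [this, hg1, one_zpow]
  obtain ⟨m, hm⟩ : ∃ m : ℕ, g ^ m = Units.mk0 u hu := by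
    have := hg (Units.mk0 u hu)
    rw [← mem_powers_iff_mem_zpowers] at this
    exact this
  have hum : u = (g : ZMod p) ^ m := by
    have := congrArg (fun z : (ZMod p)ˣ => (z : ZMod p)) hm
    simp only [Units.val_pow_eq_pow_val, Units.val_mk0] at this
    exact this.symm
  have hz3 : χ (g : ZMod p) ^ 3 = 1 := by
    rw [← MulChar.pow_apply' χ (by norm_num), h3, MulChar.one_apply_coe]
  have hzm : χ (g : ZMod p) ^ m = 1 := by
    rw [← map_pow, ← hum, h]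
  have hord : orderOf (χ (g : ZMod p)) = 3 := orderOf_eq_prime hz3 hne
  obtain ⟨k, hk⟩ := orderOf_dvd_of_pow_eq_one hzm
  rw [hord] at hk
  exact ⟨(g : ZMod p) ^ k, by rw [hum, hk, ← pow_mul, mul_comm]⟩

/-- the number of the cube roots -/
theorem card_roots (hp : p % 3 = 1) {χ : MulChar (ZMod p) ℂ} (h3 : χ ^ 3 = 1) (h1 : χ ≠ 1)
    (u : ZMod p) : ((Nat.card {x : ZMod p // x ^ 3 = u} : ℕ) : ℂ) = 1 + χ u + χ⁻¹ u := by
  have hinv : ∀ v : ZMod p, χ⁻¹ v = χ v ^ 2 := by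
    intro v
    have : χ⁻¹ = χ ^ 2 := by
      rw [inv_eq_iff_mul_eq_one, ← pow_succ']
      exact h3
    rw [this, MulChar.pow_apply' χ (by norm_num)]
  rcases eq_or_ne u 0 with h0 | h0
  · subst h0
    have : Nat.card {x : ZMod p // x ^ 3 = 0} = 1 := by
      rw [Nat.card_eq_one_iff_unique]
      refine ⟨⟨fun a b => Subtype.ext ?_⟩, ⟨⟨0, by norm_num⟩⟩⟩
      rw [pow_eq_zero_iff (by norm_num) |>.1 a.2, pow_eq_zero_iff (by norm_num) |>.1 b.2]
    rw [this, hinv, MulChar.map_zero]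
    norm_num
  · have hu3 : χ u ^ 3 = 1 := by
      rw [← MulChar.pow_apply' χ (by norm_num), h3]
      exact MulChar.one_apply (isUnit_iff_ne_zero.2 h0)
    by_cases hc : ∃ c : ZMod p, c ^ 3 = u
    · obtain ⟨c, hc⟩ := hc
      rw [card_cube hp h0 hc]
      have hc0 : c ≠ 0 := by
        rintro rfl
        exact h0 (by rw [← hc]; ring)
      have : χ u = 1 := by
        rw [← hc, map_pow, ← MulChar.pow_apply' χ (by norm_num), h3]
        exact MulChar.one_apply (isUnit_iff_ne_zero.2 hc0)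
      rw [hinv, this]
      norm_num
    · have hn : Nat.card {x : ZMod p // x ^ 3 = u} = 0 := by
        have : IsEmpty {x : ZMod p // x ^ 3 = u} := ⟨fun x => hc ⟨x.1, x.2⟩⟩
        exact Nat.card_of_isEmpty
      have hne : χ u ≠ 1 := fun h => hc (cube_of_char h3 h1 h0 h)
      rw [hn, hinv]
      have h5 : (χ u - 1) * (1 + χ u + χ u ^ 2) = 0 := by linear_combination hu3
      rw [(mul_eq_zero.1 h5).resolve_left (sub_ne_zero.2 hne)]
      norm_num

theorem sum_char {ψ : MulChar (ZMod p) ℂ} (h3 : ψ ^ 3 = 1) {d : ZMod p} (hd : d ≠ 0) :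
    ∑ y : ZMod p, ψ (y ^ 2 + d * y) = ψ d ^ 2 * jacobiSum ψ ψ := by
  have hm1 : ψ (-1) = 1 := by
    have e : (-1 : ZMod p) = (-1) ^ 3 := by ring
    have hu : IsUnit (-1 : ZMod p) := isUnit_one.neg
    rw [e, map_pow, ← MulChar.pow_apply' ψ (by norm_num), h3, MulChar.one_apply hu]
  have hb : Function.Bijective fun t : ZMod p => -d * t :=
    mulLeft_bijective₀ (-d) (neg_ne_zero.2 hd)
  rw [← hb.sum_comp, jacobiSum, Finset.mul_sum]
  refine Finset.sum_congr rfl fun t _ => ?_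
  have e : (-d * t) ^ 2 + d * (-d * t) = (-1) * d ^ 2 * (t * (1 - t)) := by ring
  rw [e, map_mul, map_mul, map_mul, map_pow, hm1, one_mul]

/-- the number of the points by Jacobi sums -/
theorem cnt_eq (hp : p % 3 = 1) {χ : MulChar (ZMod p) ℂ} (h3 : χ ^ 3 = 1) (h1 : χ ≠ 1)
    {d : ZMod p} (hd : d ≠ 0) :
    ((cnt d : ℕ) : ℂ) = p + χ d ^ 2 * jacobiSum χ χ + χ d * jacobiSum χ⁻¹ χ⁻¹ := by
  have e1 : cnt d = ∑ y : ZMod p, Nat.card {x : ZMod p // x ^ 3 = y ^ 2 + d * y} := by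
    unfold cnt
    rw [← Nat.card_sigma]
    refine Nat.card_congr ⟨fun q => ⟨q.1.2, q.1.1, q.2.symm⟩, fun s => ⟨(s.2.1, s.1), s.2.2.symm⟩,
      fun q => rfl, fun s => rfl⟩
  have hi3 : χ⁻¹ ^ 3 = 1 := by rw [inv_pow, h3, inv_one]
  have hinv : χ⁻¹ d ^ 2 = χ d := by
    have : (χ⁻¹) ^ 2 = χ := by
      rw [← mul_right_inj (χ⁻¹), ← pow_succ', hi3, inv_mul_cancel]
    rw [← MulChar.pow_apply' _ (by norm_num), this]
  rw [e1, Nat.cast_sum]
  simp only [card_roots hp h3 h1]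
  rw [Finset.sum_add_distrib, Finset.sum_add_distrib, sum_char h3 hd, sum_char hi3 hd, hinv]
  simp [ZMod.card]

theorem exists_char (hp : p % 3 = 1) : ∃ χ : MulChar (ZMod p) ℂ, χ ^ 3 = 1 ∧ χ ≠ 1 := by
  have h : 3 ∣ Fintype.card (ZMod p) - 1 := by
    rw [ZMod.card]
    omega
  obtain ⟨χ, hχ⟩ := MulChar.exists_mulChar_orderOf (ZMod p) h
    (Complex.isPrimitiveRoot_exp 3 (by norm_num))
  refine ⟨χ, by rw [← hχ]; exact pow_orderOf_eq_one χ, ?_⟩
  rintro rfl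
  rw [orderOf_one] at hχ
  omega

theorem jac_mul {χ : MulChar (ZMod p) ℂ} (h3 : χ ^ 3 = 1) (h1 : χ ≠ 1) :
    jacobiSum χ χ * jacobiSum χ⁻¹ χ⁻¹ = p := by
  have h2 : χ * χ ≠ 1 := by
    intro h
    apply h1
    have : χ ^ 3 = χ := by rw [pow_succ, pow_two, h, one_mul]
    rw [← this, h3]
  have := jacobiSum_mul_jacobiSum_inv (F := ZMod p) (F' := ℂ) (by
    rw [ringChar.eq_zero, ZMod.ringChar_zmod_n]
    exact (Fact.out : p.Prime).ne_zero.symm) h1 h1 h2
  rw [this, ZMod.card]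

/-- twists by cubes -/
theorem tr_cube (hp : p % 3 = 1) {d r : ZMod p} (hd : d ≠ 0) (hr : r ≠ 0) (h : d = r ^ 3) :
    tr d = tr (1 : ZMod p) := by
  obtain ⟨χ, h3, h1⟩ := exists_char hp
  unfold tr
  rw [cnt_eq hp h3 h1 hd, cnt_eq hp h3 h1 one_ne_zero]
  have : χ d = 1 := by
    rw [h, map_pow, ← MulChar.pow_apply' χ (by norm_num), h3]
    exact MulChar.one_apply (isUnit_iff_ne_zero.2 hr)
  rw [this, map_one]

/-- the traces of the three twists -/
theorem tr_rel (hp : p % 3 = 1) {d d' r : ZMod p} (hd : d ≠ 0) (hd' : d' ≠ 0) (h : d * d' = r ^ 3)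
    (hn : ¬ ∃ c : ZMod p, c ^ 3 = d) :
    tr d + tr d' = -tr (1 : ZMod p) ∧ tr d * tr d' = tr (1 : ZMod p) ^ 2 - 3 * p := by
  obtain ⟨χ, h3, h1⟩ := exists_char hp
  have hr : r ≠ 0 := by
    rintro rfl
    exact mul_ne_zero hd hd' (by rw [h]; ring)
  have hone : ∀ c : ZMod p, c ≠ 0 → χ c ^ 3 = 1 := fun c hc => by
    rw [← MulChar.pow_apply' χ (by norm_num), h3]
    exact MulChar.one_apply (isUnit_iff_ne_zero.2 hc)
  have hdd : χ d * χ d' = 1 := by rw [← map_mul, h, map_pow, hone r hr]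
  have hne : χ d ≠ 1 := fun h' => hn (cube_of_char h3 h1 hd h')
  have hd3 := hone d hd
  have hz : 1 + χ d + χ d ^ 2 = 0 := by
    have h5 : (χ d - 1) * (1 + χ d + χ d ^ 2) = 0 := by linear_combination hd3
    exact (mul_eq_zero.1 h5).resolve_left (sub_ne_zero.2 hne)
  have hd' : χ d' = χ d ^ 2 := by
    calc χ d' = χ d ^ 3 * χ d' := by rw [hd3, one_mul]
      _ = χ d ^ 2 * (χ d * χ d') := by ring
      _ = χ d ^ 2 := by rw [hdd, mul_one]
  have hJ := jac_mul h3 h1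
  unfold tr
  rw [cnt_eq hp h3 h1 hd, cnt_eq hp h3 h1 (by assumption), cnt_eq hp h3 h1 one_ne_zero, hd', map_one]
  set z := χ d
  set J := jacobiSum χ χ
  set J' := jacobiSum χ⁻¹ χ⁻¹
  have z4 : z ^ 4 = z := by linear_combination z * hd3
  have z2 : z ^ 2 = -1 - z := by linear_combination hz
  refine ⟨?_, ?_⟩
  · have : (z ^ 2) ^ 2 = z := by rw [← pow_mul]; exact z4
    rw [this]
    linear_combination (-J - J') * hz
  · have e4 : (z ^ 2) ^ 2 = z := by rw [← pow_mul]; exact z4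
    rw [e4]
    have key : (z ^ 2 * J + z * J') * (z * J + z ^ 2 * J') =
        (J + J') ^ 2 - 3 * (J * J') := by
      linear_combination (J ^ 2 + J' ^ 2 + z * J * J') * hd3 + J * J' * hz
    linear_combination key + (-3 : ℂ) * hJ

end Pool.Agent.R78.S3
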