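import Pool.Agent.R78.S3.Eul

/-!
# The product of the two L-functions
-/

set_option autoImplicit false
set_option linter.unusedSectionVars false

open scoped Classical

namespace Pool.Agent.R78.S3

open Module NumberField IsDedekindDomain
open Pool.Agent.Y703.CT (Cls NoSplit WD EQ)

/-- the numbers of the class are not cubes -/
theorem not_cube {N : ℕ} (h : Cls N) (b : ℚ) : b ^ 3 ≠ (N : ℚ) := by
  intro hb
  have hcf := cls_cf h
  have h2 : IsIntegral ℤ b := by
    refine IsIntegral.of_pow (n := 3) (by norm_num) ?_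
    rw [hb]
    exact isIntegral_algebraMap (R := ℤ) (A := ℚ) (x := (N : ℤ)) |> fun h => by simpa using h
  obtain ⟨m, hm⟩ := IsIntegrallyClosed.isIntegral_iff.1 h2
  have h4 : m ^ 3 = (N : ℤ) := by
    have h5 : ((m : ℤ) : ℚ) ^ 3 = (N : ℚ) := by
      rw [← hb, ← hm]
      rfl
    exact_mod_cast h5
  have h6 : m.natAbs ^ 3 = N := by
    have := congrArg Int.natAbs h4
    rwa [Int.natAbs_pow, Int.natAbs_natCast] at this
  have h7 : m.natAbs = 1 := by
    by_contra h'
    obtain ⟨p, hp, hpm⟩ := Nat.exists_prime_and_dvd h'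
    exact hcf.2 p hp (by rw [← h6]; exact pow_dvd_pow_of_dvd hpm 3)
  rw [h7, one_pow] at h6
  exact h.2.1 (by omega)

/-- the L-function -/
theorem exists_lf {N : ℕ} (hN : Cls N) : ∃ L : ℂ → ℂ, Differentiable ℂ L ∧
    (∀ s : ℂ, 3 / 2 < s.re → HasProd (fun p : Nat.Primes => ef N p s * ef (star N) p s) (L s)) ∧
    (NoSplit N → L 1 ≠ 0) := by
  have hN' := cls_star hN
  obtain ⟨-, f, hf, u, hu, -, h1, h2⟩ := Pool.Agent.Y703.CT.fin_all hN
  obtain ⟨-, f', hf', u', hu', -, h1', h2'⟩ := Pool.Agent.Y703.CT.fin_all hN'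
  refine ⟨fun s => f s * f' s, hf.1.mul hf'.1, fun s hs => ?_, fun hs => ?_⟩
  · exact (hf.2 s hs).mul (hf'.2 s hs)
  · have hs' := noSplit_star (cls_cf hN) hs
    have hT := h2.2 hs
    have hU := h1.2 hT
    have hT' := h2'.2 hs'
    have hU' := h1'.2 hT'
    exact mul_ne_zero (Pool.Agent.Y703.CX.val_ne hN hT.1 hU.1 hu)
      (Pool.Agent.Y703.CX.val_ne hN' hT'.1 hU'.1 hu')

end Pool.Agent.R78.S3
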