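import Pool.Agent.R78.S3.Gal2

/-!
# Inertia groups and Frobenius elements in `ℚ(∛N, √-3)`
-/

set_option autoImplicit false
set_option linter.unusedSectionVars false

open scoped Classical

namespace Pool.Agent.R78.S3

open Module NumberField IsDedekindDomain

variable {F : Type} [Field F] [NumberField F] {N : ℕ} {θ : F}

/-- `g` is in the inertia group of `w` -/
def InI (w : HeightOneSpectrum (𝓞 F)) (g : F ≃ₐ[ℚ] F) : Prop := ∀ x : 𝓞 F, g • x - x ∈ w.asIdeal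

/-- `g` is a Frobenius element at `w` -/
def IsFr (p : ℕ) (w : HeightOneSpectrum (𝓞 F)) (g : F ≃ₐ[ℚ] F) : Prop :=
  ∀ x : 𝓞 F, g • x - x ^ p ∈ w.asIdeal

/-- integral generators -/
structure Gi (N : ℕ) (a t : 𝓞 F) (σ τ : F ≃ₐ[ℚ] F) : Prop where
  ha : a ^ 2 + a + 1 = 0
  ht : t ^ 3 = (N : 𝓞 F)
  ga : ∀ g : F ≃ₐ[ℚ] F, g • a = a ∨ g • a = a ^ 2
  gt : ∀ g : F ≃ₐ[ℚ] F, g • t = t ∨ g • t = a * t ∨ g • t = a ^ 2 * t
  ext : ∀ g g' : F ≃ₐ[ℚ] F, g • a = g' • a → g • t = g' • t → g = g'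
  sa : σ • a = a
  st : σ • t = a * t
  ta : τ • a = a ^ 2
  tt : τ • t = t
  gen : Gen σ τ

lemma coe_smul' (g : F ≃ₐ[ℚ] F) (x : 𝓞 F) : ((g • x : 𝓞 F) : F) = g (x : F) := rfl

theorem exists_gi (h : Fld F N θ) (hN : ∀ b : ℚ, b ^ 3 ≠ (N : ℚ)) :
    ∃ (a t : 𝓞 F) (σ τ : F ≃ₐ[ℚ] F), Gi N a t σ τ := by
  obtain ⟨ω, hω⟩ := exists_omega h hN
  obtain ⟨σ, τ, hg⟩ := exists_gen h hN hω
  have hi1 : IsIntegral ℤ ω := by
    refine ⟨Polynomial.X ^ 2 + Polynomial.X + 1, by monicity!, ?_⟩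
    simp only [Polynomial.eval₂_add, Polynomial.eval₂_pow, Polynomial.eval₂_X,
      Polynomial.eval₂_one]
    exact hω
  have hi2 : IsIntegral ℤ θ := by
    refine IsIntegral.of_pow (n := 3) (by norm_num) ?_
    rw [h.cube]
    exact isIntegral_algebraMap (R := ℤ) (A := F) (x := (N : ℤ)) |> fun h => by simpa using h
  have hext : ∀ g g' : F ≃ₐ[ℚ] F, g ω = g' ω → g θ = g' θ → g = g' := by
    intro g g' h1 h2
    have h3 : g'⁻¹ * g = 1 := by
      refine fix h hN hω _ ?_ ?_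
      · rw [AlgEquiv.mul_apply, h1]
        exact g'.symm_apply_apply ω
      · rw [AlgEquiv.mul_apply, h2]
        exact g'.symm_apply_apply θ
    exact (inv_mul_eq_one.1 h3).symm
  refine ⟨⟨ω, hi1⟩, ⟨θ, hi2⟩, σ, τ, ?_, ?_, ?_, ?_, ?_, ?_, ?_, ?_, ?_, gen_of h hN hω hg⟩
  · exact RingOfIntegers.ext hω
  · refine RingOfIntegers.ext ?_
    have e : ((N : 𝓞 F) : F) = (N : F) := map_natCast (algebraMap (𝓞 F) F) N
    exact h.cube.trans e.symm
  · intro g
    rcases g_om hω g with h' | h'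
    · exact Or.inl (RingOfIntegers.ext h')
    · exact Or.inr (RingOfIntegers.ext h')
  · intro g
    rcases g_th h hω g with h' | h' | h'
    · exact Or.inl (RingOfIntegers.ext h')
    · exact Or.inr (Or.inl (RingOfIntegers.ext h'))
    · exact Or.inr (Or.inr (RingOfIntegers.ext h'))
  · intro g g' h1 h2
    exact hext g g' (congrArg (fun x : 𝓞 F => (x : F)) h1) (congrArg (fun x : 𝓞 F => (x : F)) h2)
  · exact RingOfIntegers.ext hg.sw
  · exact RingOfIntegers.ext hg.sth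
  · exact RingOfIntegers.ext hg.tw
  · exact RingOfIntegers.ext hg.tth

section loc

variable {a t : 𝓞 F} {σ τ : F ≃ₐ[ℚ] F} (hG : Gi N a t σ τ) {w : HeightOneSpectrum (𝓞 F)} {p : ℕ}

include hG

lemma a3 : a ^ 3 = 1 := by linear_combination (a - 1) * hG.ha

/-- integers in the prime -/
lemma int_mem (hp : p.Prime) (hw : (p : 𝓞 F) ∈ w.asIdeal) {m : ℤ} (hm : (m : 𝓞 F) ∈ w.asIdeal) :
    (p : ℤ) ∣ m := by
  by_contra hc
  have hco : IsCoprime (p : ℤ) m := by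
    rw [(Nat.prime_iff_prime_int.1 hp).irreducible.coprime_iff_not_dvd]
    exact hc
  obtain ⟨u, v, huv⟩ := hco
  apply w.isPrime.ne_top
  rw [Ideal.eq_top_iff_one]
  have h1 : ((u * p + v * m : ℤ) : 𝓞 F) ∈ w.asIdeal := by
    push_cast
    exact add_mem (Ideal.mul_mem_left _ _ hw) (Ideal.mul_mem_left _ _ hm)
  rw [huv] at h1
  simpa using h1

lemma a_sub (hp : p.Prime) (hw : (p : 𝓞 F) ∈ w.asIdeal) (h3 : p ≠ 3) : a - 1 ∉ w.asIdeal := by
  intro h
  have e : ((3 : ℤ) : 𝓞 F) = (a - 1) * (a ^ 2 - 1) := by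
    push_cast
    linear_combination (2 - a) * hG.ha
  have h1 : ((3 : ℤ) : 𝓞 F) ∈ w.asIdeal := by
    rw [e]
    exact Ideal.mul_mem_right _ _ h
  have h2 := int_mem hG hp hw h1
  have h4 : p ∣ 3 := by exact_mod_cast h2
  exact h3 ((Nat.prime_dvd_prime_iff_eq hp Nat.prime_three).1 h4)

lemma a_not : a ∉ w.asIdeal := by
  intro h
  apply w.isPrime.ne_top
  rw [Ideal.eq_top_iff_one, ← a3 hG]
  exact Ideal.pow_mem_of_mem _ h 3 (by norm_num)

lemma a2_sub (hp : p.Prime) (hw : (p : 𝓞 F) ∈ w.asIdeal) (h3 : p ≠ 3) :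
    a ^ 2 - 1 ∉ w.asIdeal := by
  intro h
  have e : a ^ 2 - 1 = (a - 1) * (-a ^ 2) := by linear_combination (a - 1) * hG.ha
  rw [e] at h
  rcases w.isPrime.mem_or_mem h with h' | h'
  · exact a_sub hG hp hw h3 h'
  · rw [neg_mem_iff] at h'
    exact a_not hG (w.isPrime.mem_of_pow_mem _ h')

/-- the inertia group fixes `ω` -/
lemma in_a (hp : p.Prime) (hw : (p : 𝓞 F) ∈ w.asIdeal) (h3 : p ≠ 3) {g : F ≃ₐ[ℚ] F}
    (hg : InI w g) : g • a = a := by
  refine (hG.ga g).resolve_right fun h => ?_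
  have h1 := hg a
  rw [h] at h1
  have e : a ^ 2 - a = a * (a - 1) := by ring
  rw [e] at h1
  rcases w.isPrime.mem_or_mem h1 with h' | h'
  · exact a_not hG h'
  · exact a_sub hG hp hw h3 h'

lemma t_not (hp : p.Prime) (hw : (p : 𝓞 F) ∈ w.asIdeal) (hN : ¬ p ∣ N) : t ∉ w.asIdeal := by
  intro h
  have h1 : ((N : ℤ) : 𝓞 F) ∈ w.asIdeal := by
    have : ((N : ℤ) : 𝓞 F) = t ^ 3 := by rw [hG.ht]; push_cast; rfl
    rw [this]
    exact Ideal.pow_mem_of_mem _ h 3 (by norm_num)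
  exact hN (by exact_mod_cast int_mem hG hp hw h1)

lemma one_of_t (hp : p.Prime) (hw : (p : 𝓞 F) ∈ w.asIdeal) (h3 : p ≠ 3) (hN : ¬ p ∣ N)
    {g : F ≃ₐ[ℚ] F} (h : g • t - t ∈ w.asIdeal) : g • t = t := by
  have ht := t_not hG hp hw hN
  rcases hG.gt g with h1 | h1 | h1
  · exact h1
  · exfalso
    rw [h1] at h
    have e : a * t - t = (a - 1) * t := by ring
    rw [e] at h
    rcases w.isPrime.mem_or_mem h with h' | h'
    · exact a_sub hG hp hw h3 h'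
    · exact ht h'
  · exfalso
    rw [h1] at h
    have e : a ^ 2 * t - t = (a ^ 2 - 1) * t := by ring
    rw [e] at h
    rcases w.isPrime.mem_or_mem h with h' | h'
    · exact a2_sub hG hp hw h3 h'
    · exact ht h'

/-- the inertia group is trivial for `p ∤ 3 N` -/
lemma in_one (hp : p.Prime) (hw : (p : 𝓞 F) ∈ w.asIdeal) (h3 : p ≠ 3) (hN : ¬ p ∣ N)
    (g : F ≃ₐ[ℚ] F) : InI w g ↔ g = 1 := by
  constructor
  · intro hg
    refine hG.ext g 1 ?_ ?_
    · rw [one_smul]; exact in_a hG hp hw h3 hg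
    · rw [one_smul]; exact one_of_t hG hp hw h3 hN (hg t)
  · rintro rfl x
    rw [one_smul, sub_self]
    exact w.asIdeal.zero_mem

lemma fr_a (hp : p.Prime) (hw : (p : 𝓞 F) ∈ w.asIdeal) (h3 : p ≠ 3) {g : F ≃ₐ[ℚ] F}
    (hg : IsFr p w g) : g • a = a ^ p := by
  have hmod : p % 3 = 1 ∨ p % 3 = 2 := by
    have : p % 3 ≠ 0 := fun h => h3 ((Nat.prime_dvd_prime_iff_eq Nat.prime_three hp).1
      (Nat.dvd_of_mod_eq_zero h)).symm
    omega
  have hap : a ^ p = a ^ (p % 3) := by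
    conv_lhs => rw [← Nat.div_add_mod p 3, pow_add, pow_mul, a3 hG, one_pow, one_mul]
  have h1 := hg a
  have hne : a ^ 2 - a ∉ w.asIdeal := by
    intro h
    have e : a ^ 2 - a = a * (a - 1) := by ring
    rw [e] at h
    rcases w.isPrime.mem_or_mem h with h' | h'
    · exact a_not hG h'
    · exact a_sub hG hp hw h3 h'
  rcases hmod with hm | hm
  · rw [hap, hm, pow_one] at h1 ⊢
    refine (hG.ga g).resolve_right fun h => ?_
    rw [h] at h1
    exact hne h1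
  · rw [hap, hm] at h1 ⊢
    refine (hG.ga g).resolve_left fun h => ?_
    rw [h] at h1
    apply hne
    rw [← neg_mem_iff, neg_sub]
    exact h1

/-- Frobenius elements for `p ≡ 2` modulo `3` -/
lemma fr_two (hp : p.Prime) (hw : (p : 𝓞 F) ∈ w.asIdeal) (hm : p % 3 = 2) {g : F ≃ₐ[ℚ] F}
    (hg : IsFr p w g) : g ^ 2 = 1 := by
  have h3 : p ≠ 3 := by rintro rfl; norm_num at hm
  have ha := fr_a hG hp hw h3 hg
  have hap : a ^ p = a ^ 2 := by
    conv_lhs => rw [← Nat.div_add_mod p 3, pow_add, pow_mul, a3 hG, one_pow, one_mul, hm]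
  rw [hap] at ha
  refine hG.ext _ _ ?_ ?_
  · rw [pow_two, mul_smul, ha, smul_pow', ha, one_smul]
    linear_combination a * a3 hG
  · rw [pow_two, mul_smul, one_smul]
    rcases hG.gt g with h1 | h1 | h1
    · rw [h1, h1]
    · rw [h1, smul_mul', ha, h1]
      linear_combination t * a3 hG
    · rw [h1, smul_mul', smul_pow', ha, h1]
      linear_combination (t * a ^ 3 + t) * a3 hG

lemma fr_t {g : F ≃ₐ[ℚ] F} (hm : p % 3 = 1) (hg : IsFr p w g) :
    g • t - t * ((N : 𝓞 F) ^ ((p - 1) / 3)) ∈ w.asIdeal := by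
  have e : t ^ p = t * ((N : 𝓞 F) ^ ((p - 1) / 3)) := by
    rw [← hG.ht, ← pow_mul, ← pow_succ']
    congr 1
    omega
  rw [← e]
  exact hg t

/-- Frobenius elements for `p ≡ 1` modulo `3`, `N` a cube modulo `p` -/
lemma fr_one (hp : p.Prime) (hw : (p : 𝓞 F) ∈ w.asIdeal) (hm : p % 3 = 1) (hN : ¬ p ∣ N)
    (hc : (p : ℤ) ∣ (N : ℤ) ^ ((p - 1) / 3) - 1) {g : F ≃ₐ[ℚ] F} (hg : IsFr p w g) : g = 1 := by
  have h3 : p ≠ 3 := by rintro rfl; norm_num at hm
  have ha := fr_a hG hp hw h3 hg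
  have hap : a ^ p = a := by
    conv_lhs => rw [← Nat.div_add_mod p 3, pow_add, pow_mul, a3 hG, one_pow, one_mul, hm, pow_one]
  rw [hap] at ha
  refine hG.ext _ _ (by rw [ha, one_smul]) ?_
  rw [one_smul]
  apply one_of_t hG hp hw h3 hN
  have h1 := fr_t hG hm hg
  obtain ⟨c, hc⟩ := hc
  have h2 : t * ((N : 𝓞 F) ^ ((p - 1) / 3)) - t ∈ w.asIdeal := by
    have e : t * ((N : 𝓞 F) ^ ((p - 1) / 3)) - t = (t * (c : 𝓞 F)) * (p : 𝓞 F) := by
      have := congrArg (fun z : ℤ => (z : 𝓞 F)) hc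
      push_cast at this
      linear_combination t * this
    rw [e]
    exact Ideal.mul_mem_left _ _ hw
  have h4 := add_mem h1 h2
  rwa [sub_add_sub_cancel] at h4

/-- Frobenius elements for `p ≡ 1` modulo `3`, `N` not a cube modulo `p` -/
lemma fr_ne (hp : p.Prime) (hw : (p : 𝓞 F) ∈ w.asIdeal) (hm : p % 3 = 1) (hN : ¬ p ∣ N)
    (hc : ¬ (p : ℤ) ∣ (N : ℤ) ^ ((p - 1) / 3) - 1) {g : F ≃ₐ[ℚ] F} (hg : IsFr p w g) :
    g = σ ∨ g = σ ^ 2 := by
  have h3 : p ≠ 3 := by rintro rfl; norm_num at hm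
  have ha := fr_a hG hp hw h3 hg
  have hap : a ^ p = a := by
    conv_lhs => rw [← Nat.div_add_mod p 3, pow_add, pow_mul, a3 hG, one_pow, one_mul, hm, pow_one]
  rw [hap] at ha
  rcases hG.gt g with h1 | h1 | h1
  · exfalso
    apply hc
    have h2 := fr_t hG hm hg
    rw [h1] at h2
    refine int_mem hG hp hw ?_
    push_cast
    have e : t - t * ((N : 𝓞 F) ^ ((p - 1) / 3)) = -t * ((N : 𝓞 F) ^ ((p - 1) / 3) - 1) := by ring
    rw [e] at h2
    rcases w.isPrime.mem_or_mem h2 with h' | h'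
    · rw [neg_mem_iff] at h'
      exact absurd h' (t_not hG hp hw hN)
    · exact h'
  · left
    exact hG.ext _ _ (by rw [ha, hG.sa]) (by rw [h1, hG.st])
  · right
    refine hG.ext _ _ ?_ ?_
    · rw [ha, pow_two, mul_smul, hG.sa, hG.sa]
    · rw [h1, pow_two σ, mul_smul, hG.st, smul_mul', hG.sa, hG.st]
      ring

end loc

end Pool.Agent.R78.S3
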