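import Mathlib

/-!
# The irreducible representations of degree `≥ 2` of a group of type `S₃`
-/

set_option autoImplicit false

open scoped Classical

namespace Pool.Agent.R78.S3

open Module

variable {G V : Type} [Group G] [AddCommGroup V] [Module ℂ V]

/-- irreducible -/
def Irr (ρ : Representation ℂ G V) : Prop :=
  Nontrivial V ∧ ∀ W : Submodule ℂ V, (∀ (g : G) (v : V), v ∈ W → ρ g v ∈ W) → W = ⊥ ∨ W = ⊤

/-- generators and relations -/
structure Gen (σ τ : G) : Prop where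
  s3 : σ ^ 3 = 1
  t2 : τ ^ 2 = 1
  ts : τ * σ = σ ^ 2 * τ
  gen : ∀ g : G, ∃ i j : ℕ, g = σ ^ i * τ ^ j

lemma stable {σ τ : G} (hg : Gen σ τ) (ρ : Representation ℂ G V) (W : Submodule ℂ V)
    (h1 : ∀ v ∈ W, ρ σ v ∈ W) (h2 : ∀ v ∈ W, ρ τ v ∈ W) (g : G) (v : V) (hv : v ∈ W) :
    ρ g v ∈ W := by
  obtain ⟨i, j, rfl⟩ := hg.gen g
  rw [map_mul, Module.End.mul_apply, map_pow, map_pow]
  have k2 : ∀ j : ℕ, ∀ v ∈ W, ((ρ τ) ^ j) v ∈ W := by
    intro j
    induction j with
    | zero => intro v hv; simpa using hv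
    | succ j ih =>
      intro v hv
      rw [pow_succ', Module.End.mul_apply]
      exact h2 _ (ih v hv)
  have k1 : ∀ j : ℕ, ∀ v ∈ W, ((ρ σ) ^ j) v ∈ W := by
    intro j
    induction j with
    | zero => intro v hv; simpa using hv
    | succ j ih =>
      intro v hv
      rw [pow_succ', Module.End.mul_apply]
      exact h1 _ (ih v hv)
  exact k1 i _ (k2 j v hv)

lemma tt {σ τ : G} (hg : Gen σ τ) (ρ : Representation ℂ G V) (v : V) : ρ τ (ρ τ v) = v := by
  rw [← Module.End.mul_apply, ← map_mul, ← pow_two, hg.t2, map_one]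
  rfl

lemma st {σ τ : G} (hg : Gen σ τ) (ρ : Representation ℂ G V) {v : V} {z : ℂ}
    (hv : ρ σ v = z • v) : ρ σ (ρ τ v) = z ^ 2 • ρ τ v := by
  have h1 : σ * τ = τ * σ ^ 2 := by
    have h2 : σ * (τ * σ) * (σ ^ 2) = σ * (σ ^ 2 * τ) * (σ ^ 2) := by rw [hg.ts]
    have h3 : σ * (σ ^ 2 * τ) * (σ ^ 2) = σ ^ 3 * τ * σ ^ 2 := by
      simp only [pow_succ, pow_zero, one_mul, mul_assoc]
    have h4 : σ * (τ * σ) * (σ ^ 2) = σ * τ * σ ^ 3 := by
      simp only [pow_succ, pow_zero, one_mul, mul_assoc]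
    rw [h3, h4, hg.s3, mul_one, one_mul] at h2
    exact h2
  have h5 : ρ σ (ρ τ v) = ρ τ (ρ σ (ρ σ v)) := by
    rw [← Module.End.mul_apply, ← map_mul, h1, map_mul, pow_two, map_mul, Module.End.mul_apply,
      Module.End.mul_apply]
  rw [h5, hv, map_smul, hv, map_smul, map_smul, smul_smul, pow_two]

/-- the structure of an irreducible representation of degree at least two -/
theorem irr_two {σ τ : G} (hg : Gen σ τ) (ρ : Representation ℂ G V) [FiniteDimensional ℂ V]
    (hirr : Irr ρ) (h2 : 2 ≤ finrank ℂ V) :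
    ∃ (z : ℂ) (b : Basis (Fin 2) ℂ V), z ^ 2 + z + 1 = 0 ∧ ρ σ (b 0) = z • b 0 ∧
      ρ σ (b 1) = z ^ 2 • b 1 ∧ ρ τ (b 0) = b 1 ∧ ρ τ (b 1) = b 0 := by
  obtain ⟨hnt, hW⟩ := hirr
  obtain ⟨z, hz⟩ := Module.End.exists_eigenvalue (ρ σ)
  obtain ⟨v, hv⟩ := hz.exists_hasEigenvector
  have hv1 : ρ σ v = z • v := hv.apply_eq_smul
  have hv0 : v ≠ 0 := hv.2
  have hv2 := st hg ρ hv1
  have hz3 : z ^ 3 = 1 := by
    have h1 : ρ (σ ^ 3) v = z ^ 3 • v := by
      rw [map_pow, pow_succ, pow_two, Module.End.mul_apply, Module.End.mul_apply, hv1, map_smul,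
        map_smul, hv1, map_smul, hv1, smul_smul, smul_smul]
      congr 1
      ring
    rw [hg.s3, map_one] at h1
    have h3 : (z ^ 3 - 1) • v = 0 := by
      rw [sub_smul, one_smul, ← h1]
      exact sub_self v
    exact sub_eq_zero.1 ((smul_eq_zero.1 h3).resolve_right hv0)
  -- a stable line is impossible
  have hline : ∀ u : V, u ≠ 0 → (∃ a : ℂ, ρ σ u = a • u) → (∃ a : ℂ, ρ τ u = a • u) → False := by
    rintro u hu ⟨a, ha⟩ ⟨c, hc⟩
    have hst : ∀ (g : G) (x : V), x ∈ (ℂ ∙ u) → ρ g x ∈ (ℂ ∙ u) := by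
      refine stable hg ρ _ ?_ ?_
      · intro x hx
        obtain ⟨t, rfl⟩ := Submodule.mem_span_singleton.1 hx
        rw [map_smul, ha, smul_smul]
        exact Submodule.smul_mem _ _ (Submodule.mem_span_singleton_self u)
      · intro x hx
        obtain ⟨t, rfl⟩ := Submodule.mem_span_singleton.1 hx
        rw [map_smul, hc, smul_smul]
        exact Submodule.smul_mem _ _ (Submodule.mem_span_singleton_self u)
    rcases hW _ hst with h | h
    · exact hu (Submodule.span_singleton_eq_bot.1 h)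
    · have h3 : finrank ℂ (ℂ ∙ u) = 1 := finrank_span_singleton hu
      rw [h, finrank_top] at h3
      omega
  have hz1 : z ≠ 1 := by
    rintro rfl
    rw [one_smul] at hv1
    rw [one_pow, one_smul] at hv2
    by_cases hu : v + ρ τ v = 0
    · refine hline v hv0 ⟨1, by rw [one_smul]; exact hv1⟩ ⟨-1, ?_⟩
      rw [neg_smul, one_smul]
      exact (neg_eq_of_add_eq_zero_right hu).symm
    · refine hline _ hu ⟨1, ?_⟩ ⟨1, ?_⟩
      · rw [map_add, hv1, hv2, one_smul]
      · rw [map_add, tt hg ρ v, one_smul, add_comm]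
  have hzz : z ^ 2 + z + 1 = 0 := by
    have h5 : (z - 1) * (z ^ 2 + z + 1) = 0 := by linear_combination hz3
    exact (mul_eq_zero.1 h5).resolve_left (sub_ne_zero.2 hz1)
  have hz0 : z ≠ 0 := by
    rintro rfl
    norm_num at hz3
  have hw0 : ρ τ v ≠ 0 := by
    intro h
    apply hv0
    rw [← tt hg ρ v, h, map_zero]
  -- linear independence
  have hli : LinearIndependent ℂ ![v, ρ τ v] := by
    rw [LinearIndependent.pair_iff' hv0]
    intro a ha
    have h1 := hv2
    rw [← ha, map_smul, hv1, smul_smul, smul_smul] at h1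
    have h3 : (a * z - z ^ 2 * a) • v = 0 := by
      rw [sub_smul, h1, sub_self]
    have h4 := (smul_eq_zero.1 h3).resolve_right hv0
    have h5 : a * z * (1 - z) = 0 := by linear_combination h4
    have h6 : a = 0 := by
      rcases mul_eq_zero.1 h5 with h | h
      · exact (mul_eq_zero.1 h).resolve_right hz0
      · exact absurd (sub_eq_zero.1 h).symm hz1
    rw [h6, zero_smul] at ha
    exact hw0 ha.symm
  have hspan : ⊤ ≤ Submodule.span ℂ (Set.range ![v, ρ τ v]) := by
    have hst : ∀ (g : G) (x : V), x ∈ Submodule.span ℂ (Set.range ![v, ρ τ v]) →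
        ρ g x ∈ Submodule.span ℂ (Set.range ![v, ρ τ v]) := by
      have hr : Set.range ![v, ρ τ v] = {v, ρ τ v} := by
        simp [Matrix.range_cons, Matrix.range_empty, Set.pair_comm]
      rw [hr]
      refine stable hg ρ _ ?_ ?_
      · intro x hx
        obtain ⟨a, c, rfl⟩ := Submodule.mem_span_pair.1 hx
        rw [map_add, map_smul, map_smul, hv1, hv2, smul_smul, smul_smul]
        exact Submodule.mem_span_pair.2 ⟨_, _, rfl⟩
      · intro x hx
        obtain ⟨a, c, rfl⟩ := Submodule.mem_span_pair.1 hx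
        rw [map_add, map_smul, map_smul, tt hg ρ v, add_comm]
        exact Submodule.mem_span_pair.2 ⟨_, _, rfl⟩
    rcases hW _ hst with h | h
    · exfalso
      have h3 : v ∈ Submodule.span ℂ (Set.range ![v, ρ τ v]) := Submodule.subset_span ⟨0, rfl⟩
      rw [h] at h3
      exact hv0 ((Submodule.mem_bot ℂ).1 h3)
    · exact h.ge
  refine ⟨z, Basis.mk hli hspan, hzz, ?_, ?_, ?_, ?_⟩
  · rw [Basis.mk_apply]; exact hv1
  · rw [Basis.mk_apply]; exact hv2
  · rw [Basis.mk_apply, Basis.mk_apply]; rfl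
  · rw [Basis.mk_apply, Basis.mk_apply]; exact tt hg ρ v

/-- `1 - x A + y A²` -/
noncomputable def P2 (A : V →ₗ[ℂ] V) (x y : ℂ) : V →ₗ[ℂ] V := LinearMap.id - x • A + y • (A * A)

lemma det_diag (b : Basis (Fin 2) ℂ V) {A : V →ₗ[ℂ] V} {α β : ℂ} (h0 : A (b 0) = α • b 0)
    (h1 : A (b 1) = β • b 1) (x y : ℂ) :
    LinearMap.det (P2 A x y) = (1 - x * α + y * α ^ 2) * (1 - x * β + y * β ^ 2) := by
  have e0 : P2 A x y (b 0) = (1 - x * α + y * α ^ 2) • b 0 := by
    unfold P2
    simp only [LinearMap.add_apply, LinearMap.sub_apply, LinearMap.id_apply, LinearMap.smul_apply,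
      Module.End.mul_apply, h0, map_smul, smul_smul, add_smul, sub_smul, one_smul, pow_two]
  have e1 : P2 A x y (b 1) = (1 - x * β + y * β ^ 2) • b 1 := by
    unfold P2
    simp only [LinearMap.add_apply, LinearMap.sub_apply, LinearMap.id_apply, LinearMap.smul_apply,
      Module.End.mul_apply, h1, map_smul, smul_smul, add_smul, sub_smul, one_smul, pow_two]
  rw [← LinearMap.det_toMatrix b, Matrix.det_fin_two]
  simp only [LinearMap.toMatrix_apply, e0, e1, map_smul, Basis.repr_self, Finsupp.smul_apply,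
    Finsupp.single_apply, smul_eq_mul]
  simp

lemma det_zero (b : Basis (Fin 2) ℂ V) (x y : ℂ) : LinearMap.det (P2 (0 : V →ₗ[ℂ] V) x y) = 1 := by
  have := det_diag b (A := 0) (α := 0) (β := 0) (by simp) (by simp) x y
  rw [this]
  ring

lemma det_inv (b : Basis (Fin 2) ℂ V) {A : V →ₗ[ℂ] V} (h : A * A = 1) (y : ℂ) :
    LinearMap.det (P2 A 0 y) = (1 + y) ^ 2 := by
  have e : P2 A 0 y = P2 (1 : V →ₗ[ℂ] V) 0 y := by
    unfold P2
    rw [h, mul_one]
    simp
  rw [e, det_diag b (A := 1) (α := 1) (β := 1) (by simp) (by simp)]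
  ring

end Pool.Agent.R78.S3
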